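import Mathlib

set_option autoImplicit false

/-!
# The variety of nilpotent (A,C)-commutative n-ary algebra structures on `ℂ^k`
-/

namespace Pool.Agent.NilpotentNAry

/-- An `n`-ary algebra structure on `ℂ^k`: a multilinear map `[·,…,·] : (ℂ^k)^n → ℂ^k`. -/
abbrev AlgStructure (n k : ℕ) : Type :=
  MultilinearMap ℂ (fun _ : Fin n => (Fin k → ℂ)) (Fin k → ℂ)

/-- The structure constants of `μ`: the `(i, j)` entry is the `j`-th coordinate of
`[e_{i_1}, …, e_{i_n}]`. -/
def structureConstants {n k : ℕ} (μ : AlgStructure n k) : (Fin n → Fin k) × Fin k → ℂ :=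
  fun p => μ (fun t => Pi.single (p.1 t) 1) p.2

/-- `(A, C)`-commutativity: interchanging the entries in two positions of `A` changes the sign,
interchanging the entries in two positions of `C` does not change the product. -/
def IsACCommutative {n k : ℕ} (A C : Finset (Fin n)) (μ : AlgStructure n k) : Prop :=
  (∀ s ∈ A, ∀ t ∈ A, s ≠ t → ∀ x : Fin n → (Fin k → ℂ), μ (x ∘ Equiv.swap s t) = - μ x) ∧
  (∀ s ∈ C, ∀ t ∈ C, ∀ x : Fin n → (Fin k → ℂ), μ (x ∘ Equiv.swap s t) = μ x)

/-- `IsMonomial μ m x`: the element `x` is a monomial obtained by `m` applications of the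
multiplication, in some arrangement of the brackets, from elements of the algebra. -/
inductive IsMonomial {n k : ℕ} (μ : AlgStructure n k) : ℕ → (Fin k → ℂ) → Prop
  | var (x : Fin k → ℂ) : IsMonomial μ 0 x
  | app (m : Fin n → ℕ) (x : Fin n → (Fin k → ℂ)) (h : ∀ t, IsMonomial μ (m t) (x t)) :
      IsMonomial μ (∑ t, m t + 1) (μ x)

/-- The algebra is nilpotent: there is `m` such that all monomials involving at least `m`
applications of the multiplication are zero. -/
def IsNilpotentAlg {n k : ℕ} (μ : AlgStructure n k) : Prop :=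
  ∃ m : ℕ, ∀ m' ≥ m, ∀ x, IsMonomial μ m' x → x = 0

/-- The set `X_{n,k}(A,C)` of the structure constants of all nilpotent `(A, C)`-commutative
`n`-ary algebra structures on `ℂ^k`, in the affine space of dimension `k^(n+1)`. -/
def nilpotentVariety (n k : ℕ) (A C : Finset (Fin n)) : Set ((Fin n → Fin k) × Fin k → ℂ) :=
  {c | ∃ μ : AlgStructure n k, IsACCommutative A C μ ∧ IsNilpotentAlg μ ∧ structureConstants μ = c}

/-- The dimension of an algebraic subset `X` of the affine space `ℂ^σ`: the Krull dimension of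
its coordinate ring `ℂ[x_s : s ∈ σ] / I(X)`. -/
noncomputable def dimension {σ : Type} (X : Set (σ → ℂ)) : WithBot ℕ∞ :=
  ringKrullDim (MvPolynomial σ ℂ ⧸ MvPolynomial.vanishingIdeal ℂ X)

end Pool.Agent.NilpotentNAry
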