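import Mathlib
import Pool.Agent.NilpotentNAry.Defs

set_option autoImplicit false

/-!
# Structure constants, change of basis, strictly triangular structures
-/

namespace Pool.Agent.NilpotentNAry

open Matrix

section action

variable {n k : ℕ} {R S : Type*} [CommRing R] [CommRing S]

/-- The tensor of the structure constants of `x ↦ g μ(h x_1, …, h x_n)`. -/
def act (g h : Matrix (Fin k) (Fin k) R) (c : (Fin n → Fin k) × Fin k → R) :
    (Fin n → Fin k) × Fin k → R :=
  fun p => ∑ j', ∑ i' : Fin n → Fin k, g p.2 j' * (c (i', j') * ∏ t, h (i' t) (p.1 t))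

theorem map_act (f : R →+* S) (g h : Matrix (Fin k) (Fin k) R)
    (c : (Fin n → Fin k) × Fin k → R) (p : (Fin n → Fin k) × Fin k) :
    f (act g h c p) = act (g.map f) (h.map f) (fun q => f (c q)) p := by
  simp [act, map_sum, map_mul, map_prod]

end action

variable {n k : ℕ}

/-- The structure `x ↦ g μ(h x_1, …, h x_n)`. -/
noncomputable def conj (g h : Matrix (Fin k) (Fin k) ℂ) (μ : AlgStructure n k) :
    AlgStructure n k :=
  (toLin' g).compMultilinearMap (μ.compLinearMap fun _ => toLin' h)

theorem conj_apply (g h : Matrix (Fin k) (Fin k) ℂ) (μ : AlgStructure n k)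
    (x : Fin n → (Fin k → ℂ)) : conj g h μ x = g *ᵥ (μ fun t => h *ᵥ x t) := by
  simp [conj]

theorem conj_conj (g h g' h' : Matrix (Fin k) (Fin k) ℂ) (μ : AlgStructure n k) :
    conj g h (conj g' h' μ) = conj (g * g') (h' * h) μ := by
  refine MultilinearMap.ext fun x => ?_
  simp only [conj_apply, mulVec_mulVec]

theorem conj_one (μ : AlgStructure n k) : conj 1 1 μ = μ := by
  refine MultilinearMap.ext fun x => ?_
  simp only [conj_apply, one_mulVec]

/-- Expansion of a product in terms of the structure constants. -/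
theorem apply_eq_sum (μ : AlgStructure n k) (x : Fin n → (Fin k → ℂ)) (j : Fin k) :
    μ x j = ∑ i : Fin n → Fin k, (∏ t, x t (i t)) * structureConstants μ (i, j) := by
  have h1 : x = fun t => ∑ l : Fin k, x t l • (Pi.single l 1 : Fin k → ℂ) := by
    funext t
    exact pi_eq_sum_univ' (x t)
  conv_lhs => rw [h1]
  rw [MultilinearMap.map_sum]
  simp only [Finset.sum_apply]
  refine Finset.sum_congr rfl fun i _ => ?_
  rw [MultilinearMap.map_smul_univ]
  simp [structureConstants]

theorem structureConstants_conj (g h : Matrix (Fin k) (Fin k) ℂ) (μ : AlgStructure n k) :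
    structureConstants (conj g h μ) = act g h (structureConstants μ) := by
  funext p
  rw [structureConstants, conj_apply]
  simp only [mulVec, dotProduct, act]
  refine Finset.sum_congr rfl fun j' _ => ?_
  rw [apply_eq_sum, Finset.mul_sum]
  refine Finset.sum_congr rfl fun i' _ => ?_
  congr 1
  rw [mul_comm]
  congr 1
  refine Finset.prod_congr rfl fun t _ => ?_
  simp

theorem structureConstants_injective :
    Function.Injective (structureConstants : AlgStructure n k → _) := by
  intro μ ν h
  refine MultilinearMap.ext fun x => funext fun j => ?_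
  rw [apply_eq_sum, apply_eq_sum, h]

/-- The structure with given structure constants. -/
noncomputable def ofConstants (c : (Fin n → Fin k) × Fin k → ℂ) : AlgStructure n k :=
  ∑ i : Fin n → Fin k, ((MultilinearMap.mkPiAlgebra ℂ (Fin n) ℂ).compLinearMap
    (fun t => (LinearMap.proj (i t) : (Fin k → ℂ) →ₗ[ℂ] ℂ))).smulRight (fun j => c (i, j))

theorem structureConstants_ofConstants (c : (Fin n → Fin k) × Fin k → ℂ) :
    structureConstants (ofConstants c) = c := by
  classical
  funext p
  obtain ⟨i, j⟩ := p
  simp only [structureConstants, ofConstants, _root_.sum_apply, Finset.sum_apply]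
  rw [Finset.sum_eq_single i]
  · simp
  · intro i' _ hi'
    obtain ⟨t, ht⟩ : ∃ t, i' t ≠ i t := by
      by_contra hcon
      push Not at hcon
      exact hi' (funext hcon)
    simp only [MultilinearMap.smulRight_apply, MultilinearMap.compLinearMap_apply,
      MultilinearMap.mkPiAlgebra_apply, LinearMap.proj_apply, Pi.smul_apply, smul_eq_mul]
    rw [Finset.prod_eq_zero (Finset.mem_univ t), zero_mul]
    simp [ht]
  · simp

theorem IsACCommutative.conj {A C : Finset (Fin n)} {μ : AlgStructure n k}
    (hμ : IsACCommutative A C μ) (g h : Matrix (Fin k) (Fin k) ℂ) :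
    IsACCommutative A C (conj g h μ) := by
  constructor
  · intro s hs t ht hst x
    have := hμ.1 s hs t ht hst (fun t => h *ᵥ x t)
    rw [conj_apply, conj_apply, ← mulVec_neg, ← this]
    rfl
  · intro s hs t ht x
    have := hμ.2 s hs t ht (fun t => h *ᵥ x t)
    rw [conj_apply, conj_apply, ← this]
    rfl

theorem IsMonomial.conj {μ : AlgStructure n k} {g h : Matrix (Fin k) (Fin k) ℂ} (hgh : h * g = 1)
    {m : ℕ} {x : Fin k → ℂ} (hx : IsMonomial (conj g h μ) m x) : IsMonomial μ m (h *ᵥ x) := by
  induction hx with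
  | var x => exact IsMonomial.var _
  | app m x hx ih =>
    rw [conj_apply, mulVec_mulVec, hgh, one_mulVec]
    exact IsMonomial.app m _ ih

theorem IsNilpotentAlg.conj {μ : AlgStructure n k} (hμ : IsNilpotentAlg μ)
    {g h : Matrix (Fin k) (Fin k) ℂ} (hgh : h * g = 1) : IsNilpotentAlg (conj g h μ) := by
  obtain ⟨m, hm⟩ := hμ
  refine ⟨m, fun m' hm' x hx => ?_⟩
  have h1 := hm m' hm' _ (hx.conj hgh)
  have h2 : g * h = 1 := mul_eq_one_comm.1 hgh
  calc x = (g * h) *ᵥ x := by rw [h2, one_mulVec]
    _ = g *ᵥ (h *ᵥ x) := by rw [mulVec_mulVec]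
    _ = 0 := by rw [h1, mulVec_zero]

/-! ### Strictly triangular structures -/

/-- Strict triangularity with respect to the standard flag. -/
def IsStrict (μ : AlgStructure n k) : Prop :=
  ∀ (i : Fin n → Fin k) (j : Fin k), structureConstants μ (i, j) ≠ 0 → ∀ t, i t < j

/-- The vectors whose first `q` coordinates vanish. -/
def VV (k q : ℕ) : Submodule ℂ (Fin k → ℂ) where
  carrier := {x | ∀ j : Fin k, (j : ℕ) < q → x j = 0}
  add_mem' := by
    intro x y hx hy j hj
    simp [hx j hj, hy j hj]
  zero_mem' := by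
    intro j _
    rfl
  smul_mem' := by
    intro c x hx j hj
    simp [hx j hj]

theorem mem_VV {q : ℕ} {x : Fin k → ℂ} : x ∈ VV k q ↔ ∀ j : Fin k, (j : ℕ) < q → x j = 0 :=
  Iff.rfl

theorem VV_anti {q q' : ℕ} (h : q ≤ q') : VV k q' ≤ VV k q := fun _ hx j hj => hx j (hj.trans_le h)

theorem IsStrict.apply_mem {μ : AlgStructure n k} (hμ : IsStrict μ) (x : Fin n → (Fin k → ℂ))
    (t : Fin n) (q : ℕ) (hx : x t ∈ VV k q) : μ x ∈ VV k (q + 1) := by
  intro j hj
  rw [apply_eq_sum]
  refine Finset.sum_eq_zero fun i _ => ?_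
  by_cases h : structureConstants μ (i, j) = 0
  · rw [h, mul_zero]
  · have h1 := hμ i j h t
    have h2 : x t (i t) = 0 := hx (i t) (by
      have : (i t : ℕ) < (j : ℕ) := h1
      omega)
    rw [Finset.prod_eq_zero (Finset.mem_univ t) h2, zero_mul]

theorem isStrict_iff {μ : AlgStructure n k} :
    IsStrict μ ↔ ∀ (x : Fin n → (Fin k → ℂ)) (t : Fin n) (q : ℕ), x t ∈ VV k q →
      μ x ∈ VV k (q + 1) := by
  refine ⟨fun h x t q => h.apply_mem x t q, fun h i j hij t => ?_⟩
  by_contra hcon
  push Not at hcon
  apply hij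
  refine h (fun t => Pi.single (i t) 1) t (i t : ℕ) ?_ j (Nat.lt_succ_of_le hcon)
  intro l hl
  have : l ≠ i t := fun h => by
    rw [h] at hl
    exact lt_irrefl _ hl
  simp [this]

/-- Bound for the number of brackets in monomials of bounded depth. -/
def bd (n : ℕ) : ℕ → ℕ
  | 0 => 0
  | d + 1 => n * bd n d + 1

theorem IsStrict.isNilpotentAlg {μ : AlgStructure n k} (hn : 0 < n) (hμ : IsStrict μ) :
    IsNilpotentAlg μ := by
  have key : ∀ d m x, IsMonomial μ m x → bd n d < m → x ∈ VV k (d + 1) := by
    intro d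
    induction d with
    | zero =>
      intro m x hx hm
      cases hx with
      | var x => exact absurd hm (lt_irrefl _)
      | app m x hx =>
        exact hμ.apply_mem x ⟨0, hn⟩ 0 fun j hj => absurd hj (Nat.not_lt_zero _)
    | succ d ih =>
      intro m x hx hm
      cases hx with
      | var x => exact absurd hm (Nat.not_lt_zero _)
      | app m x hx =>
        rw [bd] at hm
        have h1 : ∑ _t : Fin n, bd n d < ∑ t, m t := by
          simp only [Finset.sum_const, Finset.card_univ, Fintype.card_fin, smul_eq_mul]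
          omega
        obtain ⟨t, -, ht⟩ := Finset.exists_lt_of_sum_lt h1
        exact hμ.apply_mem x t (d + 1) (ih _ _ (hx t) ht)
  refine ⟨bd n k + 1, fun m' hm' x hx => ?_⟩
  funext j
  exact key k m' x hx (by omega) j (by have := j.2; omega)

end Pool.Agent.NilpotentNAry
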