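import Mathlib
import Pool.Agent.NilpotentNAry.Tensor

set_option autoImplicit false

/-!
# Nilpotent structures are strictly triangular in a suitable basis
-/

namespace Pool.Agent.NilpotentNAry

open Matrix

section adapted

variable {V : Type*} [AddCommGroup V] [Module ℂ V]

theorem exists_adapted_set (W : ℕ → Submodule ℂ V) (hW : Antitone W) (M : ℕ) (hM : W M = ⊥) :
    ∀ d, ∀ m0, m0 + d = M → ∃ S : Set V, LinearIndepOn ℂ id S ∧ S ⊆ W m0 ∧
      ∀ m, m0 ≤ m → W m ≤ Submodule.span ℂ (S ∩ W m) := by
  intro d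
  induction d with
  | zero =>
    intro m0 hm0
    rw [add_zero] at hm0
    refine ⟨∅, linearIndepOn_empty _ _, Set.empty_subset _, fun m hm => ?_⟩
    have h1 : W m ≤ ⊥ := by
      rw [← hM, ← hm0]
      exact hW hm
    exact h1.trans bot_le
  | succ d ih =>
    intro m0 hm0
    obtain ⟨S, hS, hSW, hspan⟩ := ih (m0 + 1) (by omega)
    have hsub : S ⊆ (W m0 : Set V) := hSW.trans (hW (Nat.le_succ m0))
    refine ⟨hS.extend hsub, hS.linearIndepOn_extend hsub, hS.extend_subset hsub, fun m hm => ?_⟩
    rcases Nat.eq_or_lt_of_le hm with rfl | hlt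
    · intro x hx
      have h1 := hS.subset_span_extend hsub hx
      refine Submodule.span_mono ?_ h1
      intro y hy
      exact ⟨by simpa using hy, hS.extend_subset hsub (by simpa using hy)⟩
    · refine (hspan m hlt).trans (Submodule.span_mono ?_)
      exact Set.inter_subset_inter_left _ (hS.subset_extend hsub)

end adapted

variable {n k : ℕ}

theorem exists_adapted_basis (W : ℕ → Submodule ℂ (Fin k → ℂ)) (hW : Antitone W) (hW0 : W 0 = ⊤)
    (M : ℕ) (hM : W M = ⊥) :
    ∃ (b : Module.Basis (Fin k) ℂ (Fin k → ℂ)) (w : Fin k → ℕ), Monotone w ∧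
      (∀ l, b l ∈ W (w l)) ∧ ∀ m x, x ∈ W m → ∀ j, b.repr x j ≠ 0 → m ≤ w j := by
  classical
  obtain ⟨S, hS, -, hspan⟩ := exists_adapted_set W hW M hM M 0 (zero_add M)
  have htop : ⊤ ≤ Submodule.span ℂ (Set.range (Subtype.val : S → (Fin k → ℂ))) := by
    rw [← hW0]
    refine (hspan 0 le_rfl).trans (Submodule.span_mono ?_)
    rw [Subtype.range_coe]
    exact Set.inter_subset_left
  let b0 : Module.Basis S ℂ (Fin k → ℂ) := Module.Basis.mk (v := fun s : S => (s : Fin k → ℂ)) hS htop
  have hb0 : ∀ s : S, b0 s = s := fun s => Module.Basis.mk_apply _ _ s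
  have hfin : Finite S := Module.Finite.finite_basis b0
  have hfin' : Fintype S := Fintype.ofFinite S
  have hcard : Fintype.card S = k := by
    have h1 := Module.finrank_eq_card_basis b0
    rw [Module.finrank_fintype_fun_eq_card, Fintype.card_fin] at h1
    exact h1.symm
  let w0 : S → ℕ := fun s => Nat.findGreatest (fun m => (s : Fin k → ℂ) ∈ W m) M
  have hw0 : ∀ s : S, (s : Fin k → ℂ) ∈ W (w0 s) := by
    intro s
    have h0 : (s : Fin k → ℂ) ∈ W 0 := by
      rw [hW0]; exact Submodule.mem_top
    exact Nat.findGreatest_spec (P := fun m => (s : Fin k → ℂ) ∈ W m) (Nat.zero_le M) h0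
  have hw0' : ∀ (s : S) (m : ℕ), m ≤ M → (s : Fin k → ℂ) ∈ W m → m ≤ w0 s :=
    fun s m hm h => Nat.le_findGreatest hm h
  let e : Fin k ≃ S := (Fintype.equivFinOfCardEq hcard).symm
  let σ : Equiv.Perm (Fin k) := Tuple.sort (w0 ∘ e)
  let e' : Fin k ≃ S := σ.trans e
  refine ⟨b0.reindex e'.symm, fun l => w0 (e' l), ?_, ?_, ?_⟩
  · exact Tuple.monotone_sort (w0 ∘ e)
  · intro l
    rw [Module.Basis.reindex_apply, Equiv.symm_symm, hb0]
    exact hw0 _
  · intro m x hx j hj
    by_cases hmM : m ≤ M
    · apply hw0' _ _ hmM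
      rw [Module.Basis.repr_reindex_apply, Equiv.symm_symm] at hj
      have h1 : x ∈ Submodule.span ℂ (b0 '' {s | (s : Fin k → ℂ) ∈ W m}) := by
        refine Submodule.span_mono ?_ (hspan m (Nat.zero_le m) hx)
        rintro y ⟨hy, hyW⟩
        exact ⟨⟨y, hy⟩, hyW, hb0 _⟩
      have h2 := b0.repr_support_subset_of_mem_span _ h1
      exact h2 (Finsupp.mem_support_iff.2 hj)
    · exfalso
      have h1 : x ∈ W M := hW (le_of_not_ge hmM) hx
      rw [hM, Submodule.mem_bot] at h1
      rw [h1] at hj
      simp at hj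

/-- The descending chain of ideals. -/
def chain (μ : AlgStructure n k) : ℕ → Submodule ℂ (Fin k → ℂ)
  | 0 => ⊤
  | m + 1 => Submodule.span ℂ {y | ∃ (x : Fin n → (Fin k → ℂ)) (t : Fin n),
      x t ∈ chain μ m ∧ y = μ x}

theorem chain_succ_le (μ : AlgStructure n k) (m : ℕ) : chain μ (m + 1) ≤ chain μ m := by
  induction m with
  | zero => exact le_top
  | succ m ih =>
    refine Submodule.span_mono ?_
    rintro y ⟨x, t, hx, rfl⟩
    exact ⟨x, t, ih hx, rfl⟩

theorem chain_antitone (μ : AlgStructure n k) : Antitone (chain μ) :=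
  antitone_nat_of_succ_le (chain_succ_le μ)

theorem chain_le_monomials (μ : AlgStructure n k) (m : ℕ) :
    chain μ m ≤ Submodule.span ℂ {x | ∃ m' ≥ m, IsMonomial μ m' x} := by
  classical
  induction m with
  | zero =>
    intro x _
    exact Submodule.subset_span ⟨0, le_rfl, IsMonomial.var x⟩
  | succ m ih =>
    refine Submodule.span_le.2 ?_
    rintro y ⟨x, t, hx, rfl⟩
    have h1 : ∀ z ∈ Submodule.span ℂ {x | ∃ m' ≥ m, IsMonomial μ m' x},
        μ (Function.update x t z) ∈ Submodule.span ℂ {x | ∃ m' ≥ m + 1, IsMonomial μ m' x} := by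
      intro z hz
      induction hz using Submodule.span_induction with
      | mem z hz =>
        obtain ⟨m', hm', hz⟩ := hz
        refine Submodule.subset_span ⟨∑ s, Function.update (fun _ : Fin n => 0) t m' s + 1, ?_, ?_⟩
        · have : m' ≤ ∑ s, Function.update (fun _ : Fin n => 0) t m' s := by
            have := Finset.single_le_sum
              (f := fun s => Function.update (fun _ : Fin n => 0) t m' s)
              (fun s _ => Nat.zero_le _) (Finset.mem_univ t)
            simpa using this
          omega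
        · refine IsMonomial.app _ _ fun s => ?_
          by_cases hs : s = t
          · subst hs
            simpa using hz
          · simpa [hs] using IsMonomial.var (x s)
      | zero =>
        rw [μ.map_coord_zero t (by simp)]
        exact Submodule.zero_mem _
      | add z z' _ _ hz hz' =>
        rw [MultilinearMap.map_update_add]
        exact Submodule.add_mem _ hz hz'
      | smul c z _ hz =>
        rw [MultilinearMap.map_update_smul]
        exact Submodule.smul_mem _ c hz
    have h2 := h1 (x t) (ih hx)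
    rwa [Function.update_eq_self] at h2

theorem exists_isStrict_conj {μ : AlgStructure n k} (hμ : IsNilpotentAlg μ) :
    ∃ g h : Matrix (Fin k) (Fin k) ℂ, h * g = 1 ∧ IsStrict (conj g h μ) := by
  obtain ⟨M, hM⟩ := hμ
  have hbot : chain μ M = ⊥ := by
    rw [eq_bot_iff]
    refine (chain_le_monomials μ M).trans (Submodule.span_le.2 ?_)
    rintro x ⟨m', hm', hx⟩
    exact hM m' hm' x hx
  obtain ⟨b, w, hw, hbw, hrepr⟩ := exists_adapted_basis (chain μ) (chain_antitone μ) rfl M hbot
  let e := Pi.basisFun ℂ (Fin k)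
  refine ⟨b.toMatrix e, e.toMatrix b, Module.Basis.toMatrix_mul_toMatrix_flip _ _, ?_⟩
  intro i j hij t
  have h1 : ∀ l, (e.toMatrix b) *ᵥ (Pi.single l 1) = b l := by
    intro l
    ext s
    simp [e, Module.Basis.toMatrix_apply]
  have h2 : ∀ x, (b.toMatrix e) *ᵥ x = b.repr x := by
    intro x
    have h3 : (b.toMatrix e) *ᵥ (e.repr x) = b.repr x := Module.Basis.toMatrix_mulVec_repr e b x
    have h4 : (e.repr x : Fin k → ℂ) = x := by
      ext l
      simp [e]
    rwa [h4] at h3
  have h3 : structureConstants (conj (b.toMatrix e) (e.toMatrix b) μ) (i, j) =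
      b.repr (μ fun t => b (i t)) j := by
    rw [structureConstants, conj_apply, h2]
    simp only [h1]
  rw [h3] at hij
  have h4 : (μ fun t => b (i t)) ∈ chain μ (w (i t) + 1) :=
    Submodule.subset_span ⟨fun t => b (i t), t, hbw _, rfl⟩
  have h5 := hrepr _ _ h4 j hij
  by_contra hcon
  push Not at hcon
  have := hw hcon
  omega

end Pool.Agent.NilpotentNAry
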