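import Mathlib
import Pool.Agent.NilpotentNAry.Tensor

set_option autoImplicit false

/-!
# A linear parametrization of the strictly triangular `(A,C)`-commutative structures
-/

namespace Pool.Agent.NilpotentNAry

open Matrix

/-! ### The sign factor -/

section dl

variable {n : ℕ}

/-- The Vandermonde determinant of the values of `i` on `A`. -/
def dl (A : Finset (Fin n)) (i : Fin n → ℕ) : ℤ :=
  (vandermonde (fun l : Fin A.card => ((i (A.orderEmbOfFin rfl l) : ℕ) : ℤ))).det

theorem dl_ne_zero_iff (A : Finset (Fin n)) (i : Fin n → ℕ) : dl A i ≠ 0 ↔ Set.InjOn i A := by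
  rw [dl, det_vandermonde_ne_zero_iff]
  constructor
  · intro h s hs t ht hst
    have hs' : s ∈ Set.range (A.orderEmbOfFin rfl) := by
      rw [Finset.range_orderEmbOfFin]; exact hs
    have ht' : t ∈ Set.range (A.orderEmbOfFin rfl) := by
      rw [Finset.range_orderEmbOfFin]; exact ht
    obtain ⟨a, rfl⟩ := hs'
    obtain ⟨b, rfl⟩ := ht'
    have : a = b := h (by simp [hst])
    rw [this]
  · intro h a b hab
    have h1 : i (A.orderEmbOfFin rfl a) = i (A.orderEmbOfFin rfl b) := by
      simpa using hab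
    exact (A.orderEmbOfFin rfl).injective
      (h (Finset.orderEmbOfFin_mem _ _ _) (Finset.orderEmbOfFin_mem _ _ _) h1)

theorem dl_congr (A : Finset (Fin n)) {i i' : Fin n → ℕ} (h : ∀ t ∈ A, i t = i' t) :
    dl A i = dl A i' := by
  unfold dl
  congr 2
  funext l
  rw [h _ (Finset.orderEmbOfFin_mem _ _ _)]

theorem dl_swap (A : Finset (Fin n)) (i : Fin n → ℕ) {s t : Fin n} (hs : s ∈ A) (ht : t ∈ A)
    (hst : s ≠ t) : dl A (i ∘ Equiv.swap s t) = - dl A i := by
  have hs' : s ∈ Set.range (A.orderEmbOfFin rfl) := by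
    rw [Finset.range_orderEmbOfFin]; exact hs
  have ht' : t ∈ Set.range (A.orderEmbOfFin rfl) := by
    rw [Finset.range_orderEmbOfFin]; exact ht
  obtain ⟨a, rfl⟩ := hs'
  obtain ⟨b, rfl⟩ := ht'
  have hab : a ≠ b := fun h => hst (by rw [h])
  have h1 : dl A (i ∘ Equiv.swap (A.orderEmbOfFin rfl a) (A.orderEmbOfFin rfl b)) =
      ((vandermonde (fun l : Fin A.card => ((i (A.orderEmbOfFin rfl l) : ℕ) : ℤ))).submatrix
        (Equiv.swap a b) id).det := by
    unfold dl
    congr 1
    ext l m
    simp only [vandermonde_apply, submatrix_apply, Function.comp_apply, id_eq]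
    congr 3
    rw [Function.Injective.swap_apply (A.orderEmbOfFin rfl).injective]
  rw [h1, det_permute, Equiv.Perm.sign_swap hab, dl]
  simp

end dl

/-! ### Multisets of values -/

theorem exists_perm_of_map_eq {ι α : Type*} [Fintype ι] (f g : ι → α)
    (h : Finset.univ.val.map f = Finset.univ.val.map g) : ∃ σ : Equiv.Perm ι, f = g ∘ σ := by
  classical
  have hc : ∀ a, Fintype.card {x // f x = a} = Fintype.card {x // g x = a} := by
    intro a
    have h1 := congrArg (Multiset.count a) h
    rw [Multiset.count_map, Multiset.count_map] at h1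
    rw [Fintype.card_subtype, Fintype.card_subtype]
    simpa [Finset.card_def, eq_comm] using h1
  let e : ι ≃ ι := Equiv.ofFiberEquiv (f := f) (g := g) (fun a => Fintype.equivOfCardEq (hc a))
  refine ⟨e, ?_⟩
  funext x
  exact (Equiv.ofFiberEquiv_map _ x).symm

theorem exists_fun_of_card {ι α : Type*} [Fintype ι] (M : Multiset α)
    (h : M.card = Fintype.card ι) : ∃ f : ι → α, Finset.univ.val.map f = M := by
  classical
  induction M using Quotient.inductionOn with
  | h l =>
    have hl : l.length = Fintype.card ι := by simpa using h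
    let e : ι ≃ Fin l.length := (Fintype.equivFinOfCardEq hl.symm)
    refine ⟨fun x => l.get (e x), ?_⟩
    have h1 : (Finset.univ.val.map (fun x => l.get (e x)) : Multiset α) =
        (Finset.univ.val.map e : Multiset (Fin l.length)).map l.get := by
      rw [Multiset.map_map]
      rfl
    have h2 : (Finset.univ.val.map e : Multiset (Fin l.length)) = Finset.univ.val := by
      simp
    rw [h1, h2]
    have h3 : (Finset.univ.val : Multiset (Fin l.length)) = (List.finRange l.length : List _) := rfl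
    rw [h3]
    simp only [Multiset.quot_mk_to_coe, Multiset.map_coe]
    congr 1
    exact List.map_get_finRange l

/-! ### Orbits of index tuples -/

section orb

variable {n : ℕ} (A C : Finset (Fin n))

/-- The positions outside `A` and `C`. -/
abbrev Rest : Type := {t : Fin n // t ∉ A ∧ t ∉ C}

/-- Data of an index tuple up to permutations of the positions in `A` and in `C`. -/
abbrev Orb (p : ℕ) : Type :=
  {S : Finset (Fin p) // S ∈ Finset.powersetCard A.card Finset.univ} ×
    Sym (Fin p) C.card × (Rest A C → Fin p)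

variable {A} in
/-- The data of an index tuple. -/
def orb {p : ℕ} (i : Fin n → Fin p) (hi : Set.InjOn i A) : Orb A C p :=
  (⟨A.image i, by simp [Finset.mem_powersetCard, Finset.card_image_of_injOn hi]⟩,
    ⟨C.val.map i, by simp⟩, fun t => i t)

variable {A C}

theorem orb_eq_iff {p : ℕ} {i i' : Fin n → Fin p} {hi : Set.InjOn i A} {hi' : Set.InjOn i' A} :
    orb C i hi = orb C i' hi' ↔ A.image i = A.image i' ∧ C.val.map i = C.val.map i' ∧
      ∀ t, t ∉ A → t ∉ C → i t = i' t := by
  constructor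
  · intro h
    refine ⟨congrArg (fun o : Orb A C p => (o.1 : Finset (Fin p))) h,
      congrArg (fun o : Orb A C p => (o.2.1 : Multiset (Fin p))) h, fun t hA hC => ?_⟩
    exact congrArg (fun o : Orb A C p => o.2.2 ⟨t, hA, hC⟩) h
  · rintro ⟨h1, h2, h3⟩
    refine Prod.ext (Subtype.ext h1) (Prod.ext (Subtype.ext h2) (funext fun t => ?_))
    exact h3 t t.2.1 t.2.2

theorem orb_surjective (hAC : Disjoint A C) {p : ℕ} (o : Orb A C p) :
    ∃ (i : Fin n → Fin p) (hi : Set.InjOn i A), orb C i hi = o := by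
  classical
  obtain ⟨⟨S, hS⟩, ⟨M, hM⟩, r⟩ := o
  rw [Finset.mem_powersetCard] at hS
  have hcard : A.card = S.card := hS.2.symm
  let e : A ≃ S := Finset.equivOfCardEq hcard
  obtain ⟨f, hf⟩ := exists_fun_of_card (ι := C) M (by rw [hM]; simp)
  let i : Fin n → Fin p := fun t =>
    if hA : t ∈ A then e ⟨t, hA⟩ else if hC : t ∈ C then f ⟨t, hC⟩ else r ⟨t, hA, hC⟩
  have hiA : ∀ t (h : t ∈ A), i t = e ⟨t, h⟩ := fun t h => by simp only [i, dif_pos h]
  have hiC : ∀ t (h : t ∈ C), i t = f ⟨t, h⟩ := fun t h => by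
    have h1 : t ∉ A := fun h2 => Finset.disjoint_left.1 hAC h2 h
    simp only [i, dif_neg h1, dif_pos h]
  have hinj : Set.InjOn i A := by
    intro s hs t ht hst
    rw [hiA s hs, hiA t ht] at hst
    have := e.injective (Subtype.ext hst)
    simpa using this
  refine ⟨i, hinj, ?_⟩
  unfold orb
  have h1 : A.image i = S := by
    apply Finset.eq_of_subset_of_card_le
    · intro x hx
      obtain ⟨t, ht, rfl⟩ := Finset.mem_image.1 hx
      rw [hiA t ht]
      exact (e ⟨t, ht⟩).2
    · rw [Finset.card_image_of_injOn hinj, hcard]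
  have h2 : C.val.map i = M := by
    rw [← hf, ← Multiset.attach_map_val' C.val i]
    refine Multiset.map_congr rfl fun t _ => ?_
    exact hiC t.1 t.2
  have h3 : (fun t : Rest A C => i t) = r := by
    funext t
    simp only [i, dif_neg t.2.1, dif_neg t.2.2]
  exact Prod.ext (Subtype.ext h1) (Prod.ext (Subtype.ext h2) h3)

theorem exists_perm_of_orb_eq {p : ℕ} {i i' : Fin n → Fin p} {hi : Set.InjOn i A}
    {hi' : Set.InjOn i' A} (hAC : Disjoint A C) (h : orb C i hi = orb C i' hi') :
    ∃ (σ : Equiv.Perm A) (ρ : Equiv.Perm C),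
      i = (i' ∘ Equiv.Perm.ofSubtype σ) ∘ Equiv.Perm.ofSubtype ρ := by
  classical
  rw [orb_eq_iff] at h
  obtain ⟨h1, h2, h3⟩ := h
  have hA : (Finset.univ : Finset A).val.map (fun t : A => i t) =
      (Finset.univ : Finset A).val.map (fun t : A => i' t) := by
    have h4 : A.val.map i = A.val.map i' := by
      rw [← Finset.image_val_of_injOn hi, ← Finset.image_val_of_injOn hi', h1]
    rw [← Multiset.attach_map_val' A.val i, ← Multiset.attach_map_val' A.val i'] at h4
    exact h4
  have hC : (Finset.univ : Finset C).val.map (fun t : C => i t) =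
      (Finset.univ : Finset C).val.map (fun t : C => i' t) := by
    have h4 := h2
    rw [← Multiset.attach_map_val' C.val i, ← Multiset.attach_map_val' C.val i'] at h4
    exact h4
  obtain ⟨σ, hσ⟩ := exists_perm_of_map_eq _ _ hA
  obtain ⟨ρ, hρ⟩ := exists_perm_of_map_eq _ _ hC
  refine ⟨σ, ρ, ?_⟩
  funext t
  simp only [Function.comp_apply]
  by_cases htA : t ∈ A
  · have htC : t ∉ C := fun h => Finset.disjoint_left.1 hAC htA h
    rw [Equiv.Perm.ofSubtype_apply_of_not_mem ρ htC, Equiv.Perm.ofSubtype_apply_of_mem σ htA]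
    exact congr_fun hσ ⟨t, htA⟩
  · by_cases htC : t ∈ C
    · rw [Equiv.Perm.ofSubtype_apply_of_mem ρ htC]
      have h5 : ((ρ ⟨t, htC⟩ : C) : Fin n) ∉ A := fun h =>
        Finset.disjoint_left.1 hAC h (ρ ⟨t, htC⟩).2
      rw [Equiv.Perm.ofSubtype_apply_of_not_mem σ h5]
      exact congr_fun hρ ⟨t, htC⟩
    · rw [Equiv.Perm.ofSubtype_apply_of_not_mem ρ htC,
        Equiv.Perm.ofSubtype_apply_of_not_mem σ htA]
      exact h3 t htA htC

end orb

/-! ### The parametrization -/

section bt

variable {n k : ℕ} (A C : Finset (Fin n))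

/-- The index set of the coordinates on the space of strictly triangular structures. -/
abbrev TauB (k : ℕ) : Type := Σ j : Fin k, Orb A C j

/-- The entries of `i`, all smaller than `j`, as elements of `Fin j`. -/
def low {n k : ℕ} (i : Fin n → Fin k) (j : Fin k) (h : ∀ t, i t < j) : Fin n → Fin (j : ℕ) :=
  fun t => ⟨i t, h t⟩

variable {A} in
theorem low_injOn {i : Fin n → Fin k} {j : Fin k} {h : ∀ t, i t < j} (hi : Set.InjOn i A) :
    Set.InjOn (low i j h) A := by
  intro s hs t ht hst
  apply hi hs ht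
  simp only [low, Fin.mk.injEq] at hst
  exact Fin.ext hst

open Classical in
/-- The structure constants of the strictly triangular structure with parameters `y`. -/
noncomputable def bt {R : Type*} [CommRing R] (y : TauB A C k → R) :
    (Fin n → Fin k) × Fin k → R :=
  fun p => if h : (∀ t, p.1 t < p.2) ∧ Set.InjOn p.1 A then
    ((dl A (fun t => (p.1 t : ℕ)) : ℤ) : R) * y ⟨p.2, orb C (low p.1 p.2 h.1) (low_injOn h.2)⟩
  else 0

variable {A C}

theorem bt_eq {R : Type*} [CommRing R] (y : TauB A C k → R) {i : Fin n → Fin k} {j : Fin k}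
    (h : ∀ t, i t < j) (hi : Set.InjOn i A) :
    bt A C y (i, j) =
      ((dl A (fun t => (i t : ℕ)) : ℤ) : R) * y ⟨j, orb C (low i j h) (low_injOn hi)⟩ := by
  unfold bt
  rw [dif_pos ⟨h, hi⟩]

theorem bt_eq_zero {R : Type*} [CommRing R] (y : TauB A C k → R) {i : Fin n → Fin k} {j : Fin k}
    (h : ¬ ((∀ t, i t < j) ∧ Set.InjOn i A)) : bt A C y (i, j) = 0 := by
  unfold bt
  rw [dif_neg h]

theorem map_bt {R S : Type*} [CommRing R] [CommRing S] (f : R →+* S) (y : TauB A C k → R)
    (p : (Fin n → Fin k) × Fin k) : f (bt A C y p) = bt A C (fun q => f (y q)) p := by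
  unfold bt
  split_ifs with h
  · rw [map_mul, map_intCast]
  · rw [map_zero]

theorem bt_strict {R : Type*} [CommRing R] (y : TauB A C k → R) {i : Fin n → Fin k} {j : Fin k}
    (h : bt A C y (i, j) ≠ 0) : ∀ t, i t < j := by
  by_contra hcon
  exact h (bt_eq_zero y fun h1 => hcon h1.1)

theorem injOn_comp_perm {α : Type*} {σ : Equiv.Perm (Fin n)} (hσ : ∀ t, σ t ∈ A ↔ t ∈ A)
    (i : Fin n → α) : Set.InjOn (i ∘ σ) A ↔ Set.InjOn i A := by
  constructor
  · intro h s hs t ht hst
    have h1 : σ.symm s ∈ A := by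
      rw [← hσ, Equiv.apply_symm_apply]; exact hs
    have h2 : σ.symm t ∈ A := by
      rw [← hσ, Equiv.apply_symm_apply]; exact ht
    have := h h1 h2 (by simpa using hst)
    exact σ.symm.injective this
  · intro h s hs t ht hst
    exact σ.injective (h ((hσ s).2 hs) ((hσ t).2 ht) hst)

theorem orb_comp_perm {p : ℕ} {σ : Equiv.Perm (Fin n)} (hσ : ∀ t, σ t ∈ A ↔ t ∈ A)
    (hσC : ∀ t, σ t ∈ C ↔ t ∈ C) (hσR : ∀ t, t ∉ A → t ∉ C → σ t = t) (i : Fin n → Fin p)
    (hi : Set.InjOn i A) (hi' : Set.InjOn (i ∘ σ) A) : orb C (i ∘ σ) hi' = orb C i hi := by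
  classical
  rw [orb_eq_iff]
  refine ⟨?_, ?_, ?_⟩
  · ext x
    simp only [Finset.mem_image, Function.comp_apply]
    constructor
    · rintro ⟨t, ht, rfl⟩
      exact ⟨σ t, (hσ t).2 ht, rfl⟩
    · rintro ⟨t, ht, rfl⟩
      refine ⟨σ.symm t, ?_, by simp⟩
      rw [← hσ, Equiv.apply_symm_apply]; exact ht
  · rw [← Multiset.map_map]
    congr 1
    have h1 : C.map σ.toEmbedding = C := by
      ext x
      simp only [Finset.mem_map, Equiv.coe_toEmbedding]
      constructor
      · rintro ⟨t, ht, rfl⟩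
        exact (hσC t).2 ht
      · intro hx
        refine ⟨σ.symm x, ?_, by simp⟩
        rw [← hσC, Equiv.apply_symm_apply]; exact hx
    exact congrArg Finset.val h1
  · intro t hA hC
    simp [hσR t hA hC]

theorem bt_comp_perm {R : Type*} [CommRing R] (y : TauB A C k → R) {σ : Equiv.Perm (Fin n)}
    (hσ : ∀ t, σ t ∈ A ↔ t ∈ A) (hσC : ∀ t, σ t ∈ C ↔ t ∈ C)
    (hσR : ∀ t, t ∉ A → t ∉ C → σ t = t) (ε : ℤ)
    (hε : ∀ i : Fin n → ℕ, dl A (i ∘ σ) = ε * dl A i)
    (i : Fin n → Fin k) (j : Fin k) : bt A C y (i ∘ σ, j) = (ε : R) * bt A C y (i, j) := by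
  by_cases h : (∀ t, i t < j) ∧ Set.InjOn i A
  · have h1 : ∀ t, (i ∘ σ) t < j := fun t => h.1 (σ t)
    have h2 : Set.InjOn (i ∘ σ) A := (injOn_comp_perm hσ i).2 h.2
    rw [bt_eq y h1 h2, bt_eq y h.1 h.2]
    have h3 := hε (fun t => (i t : ℕ))
    have h4 : (fun t => (((i ∘ σ) t : Fin k) : ℕ)) = (fun t => ((i t : Fin k) : ℕ)) ∘ σ := rfl
    rw [h4, h3]
    have h5 : orb C (low (i ∘ σ) j h1) (low_injOn h2) = orb C (low i j h.1) (low_injOn h.2) :=
      orb_comp_perm hσ hσC hσR (low i j h.1) (low_injOn h.2) _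
    rw [h5]
    push_cast
    ring
  · rw [bt_eq_zero y h, mul_zero]
    apply bt_eq_zero
    rintro ⟨h1, h2⟩
    exact h ⟨fun t => by simpa using h1 (σ.symm t), (injOn_comp_perm hσ i).1 h2⟩

theorem swap_mem_iff {s t : Fin n} {D : Finset (Fin n)} (h : s ∈ D ↔ t ∈ D) (r : Fin n) :
    Equiv.swap s t r ∈ D ↔ r ∈ D := by
  by_cases h1 : r = s
  · subst h1
    rw [Equiv.swap_apply_left]; exact h.symm
  · by_cases h2 : r = t
    · subst h2
      rw [Equiv.swap_apply_right]; exact h
    · rw [Equiv.swap_apply_of_ne_of_ne h1 h2]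

theorem bt_swap_A {R : Type*} [CommRing R] (hAC : Disjoint A C) (y : TauB A C k → R)
    {s t : Fin n} (hs : s ∈ A) (ht : t ∈ A) (hst : s ≠ t) (i : Fin n → Fin k) (j : Fin k) :
    bt A C y (i ∘ Equiv.swap s t, j) = - bt A C y (i, j) := by
  have hsC : s ∉ C := fun h => Finset.disjoint_left.1 hAC hs h
  have htC : t ∉ C := fun h => Finset.disjoint_left.1 hAC ht h
  have := bt_comp_perm y (σ := Equiv.swap s t)
    (swap_mem_iff (iff_of_true hs ht)) (swap_mem_iff (iff_of_false hsC htC))
    (fun r hrA _ => Equiv.swap_apply_of_ne_of_ne (fun h => hrA (h ▸ hs)) (fun h => hrA (h ▸ ht)))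
    (-1) (fun i => by rw [dl_swap A i hs ht hst]; ring) i j
  rw [this]
  push_cast
  ring

theorem bt_swap_C {R : Type*} [CommRing R] (hAC : Disjoint A C) (y : TauB A C k → R)
    {s t : Fin n} (hs : s ∈ C) (ht : t ∈ C) (i : Fin n → Fin k) (j : Fin k) :
    bt A C y (i ∘ Equiv.swap s t, j) = bt A C y (i, j) := by
  have hsA : s ∉ A := fun h => Finset.disjoint_left.1 hAC h hs
  have htA : t ∉ A := fun h => Finset.disjoint_left.1 hAC h ht
  have := bt_comp_perm y (σ := Equiv.swap s t)
    (swap_mem_iff (iff_of_false hsA htA)) (swap_mem_iff (iff_of_true hs ht))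
    (fun r _ hrC => Equiv.swap_apply_of_ne_of_ne (fun h => hrC (h ▸ hs)) (fun h => hrC (h ▸ ht)))
    1 (fun i => by
      rw [one_mul]
      exact dl_congr A fun r hr => by
        have h1 : r ≠ s := fun h => hsA (h ▸ hr)
        have h2 : r ≠ t := fun h => htA (h ▸ hr)
        simp only [Function.comp_apply]
        rw [Equiv.swap_apply_of_ne_of_ne h1 h2]) i j
  rw [this]
  push_cast
  ring

/-! ### `(A,C)`-commutativity in terms of structure constants -/

theorem isACCommutative_iff (μ : AlgStructure n k) : IsACCommutative A C μ ↔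
    (∀ s ∈ A, ∀ t ∈ A, s ≠ t → ∀ (i : Fin n → Fin k) (j : Fin k),
      structureConstants μ (i ∘ Equiv.swap s t, j) = - structureConstants μ (i, j)) ∧
    (∀ s ∈ C, ∀ t ∈ C, ∀ (i : Fin n → Fin k) (j : Fin k),
      structureConstants μ (i ∘ Equiv.swap s t, j) = structureConstants μ (i, j)) := by
  have key : ∀ (s t : Fin n) (x : Fin n → (Fin k → ℂ)) (j : Fin k),
      μ (x ∘ Equiv.swap s t) j = ∑ i : Fin n → Fin k,
        (∏ r, x r (i r)) * structureConstants μ (i ∘ Equiv.swap s t, j) := by
    intro s t x j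
    rw [apply_eq_sum]
    refine Fintype.sum_equiv (Equiv.arrowCongr (Equiv.swap s t) (Equiv.refl _)) _ _ fun i => ?_
    have h1 : (Equiv.arrowCongr (Equiv.swap s t) (Equiv.refl (Fin k))) i =
        i ∘ Equiv.swap s t := by
      funext r
      simp [Equiv.arrowCongr]
    rw [h1]
    have h2 : (i ∘ Equiv.swap s t) ∘ Equiv.swap s t = i := by
      funext r
      simp
    rw [h2]
    congr 1
    refine Fintype.prod_equiv (Equiv.swap s t) _ _ fun r => ?_
    simp
  constructor
  · rintro ⟨h1, h2⟩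
    refine ⟨fun s hs t ht hst i j => ?_, fun s hs t ht i j => ?_⟩
    · have := congr_fun (h1 s hs t ht hst fun r => Pi.single (i r) 1) j
      exact this
    · have := congr_fun (h2 s hs t ht fun r => Pi.single (i r) 1) j
      exact this
  · rintro ⟨h1, h2⟩
    refine ⟨fun s hs t ht hst x => funext fun j => ?_, fun s hs t ht x => funext fun j => ?_⟩
    · rw [key, Pi.neg_apply, apply_eq_sum, ← Finset.sum_neg_distrib]
      refine Finset.sum_congr rfl fun i _ => ?_
      rw [h1 s hs t ht hst]
      ring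
    · rw [key, apply_eq_sum]
      refine Finset.sum_congr rfl fun i _ => ?_
      rw [h2 s hs t ht]

theorem isACCommutative_bt (hAC : Disjoint A C) (y : TauB A C k → ℂ) :
    IsACCommutative A C (ofConstants (bt A C y)) := by
  rw [isACCommutative_iff, structureConstants_ofConstants]
  exact ⟨fun s hs t ht hst i j => bt_swap_A hAC y hs ht hst i j,
    fun s hs t ht i j => bt_swap_C hAC y hs ht i j⟩

theorem isStrict_bt (y : TauB A C k → ℂ) : IsStrict (ofConstants (bt A C y)) := by
  intro i j h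
  rw [structureConstants_ofConstants] at h
  exact bt_strict y h

theorem IsACCommutative.eq_zero_of_not_injOn {μ : AlgStructure n k} (hμ : IsACCommutative A C μ)
    {i : Fin n → Fin k} (hi : ¬ Set.InjOn i A) (j : Fin k) : structureConstants μ (i, j) = 0 := by
  rw [Set.InjOn] at hi
  push Not at hi
  obtain ⟨s, hs, t, ht, hst, hne⟩ := hi
  have h1 := ((isACCommutative_iff μ).1 hμ).1 s hs t ht hne i j
  have h2 : i ∘ Equiv.swap s t = i := by
    funext r
    simp only [Function.comp_apply]
    by_cases h3 : r = s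
    · rw [h3, Equiv.swap_apply_left, hst]
    · by_cases h4 : r = t
      · rw [h4, Equiv.swap_apply_right, hst]
      · rw [Equiv.swap_apply_of_ne_of_ne h3 h4]
  rw [h2] at h1
  have h3 : (2 : ℂ) * structureConstants μ (i, j) = 0 := by linear_combination h1
  exact (mul_eq_zero.1 h3).resolve_left two_ne_zero

theorem IsACCommutative.perm_A {μ : AlgStructure n k} (hμ : IsACCommutative A C μ)
    (σ : Equiv.Perm A) (j : Fin k) : ∃ ε : ℤ, ε ≠ 0 ∧ ∀ i : Fin n → Fin k,
      structureConstants μ (i ∘ Equiv.Perm.ofSubtype σ, j) = ε * structureConstants μ (i, j) ∧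
      dl A (fun t => ((i ∘ Equiv.Perm.ofSubtype σ) t : ℕ)) = ε * dl A (fun t => (i t : ℕ)) := by
  induction σ using Equiv.Perm.swap_induction_on with
  | one => exact ⟨1, one_ne_zero, fun i => by simp⟩
  | swap_mul f x y hxy ih =>
    obtain ⟨ε, hε, h⟩ := ih
    refine ⟨-ε, neg_ne_zero.2 hε, fun i => ?_⟩
    have hne : (x : Fin n) ≠ (y : Fin n) := fun h => hxy (Subtype.ext h)
    have h1 : i ∘ Equiv.Perm.ofSubtype (Equiv.swap x y * f) =
        (i ∘ Equiv.swap (x : Fin n) (y : Fin n)) ∘ Equiv.Perm.ofSubtype f := by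
      rw [map_mul, Equiv.Perm.ofSubtype_swap_eq]
      rfl
    rw [h1]
    obtain ⟨h2, h3⟩ := h (i ∘ Equiv.swap (x : Fin n) (y : Fin n))
    rw [h2, h3, ((isACCommutative_iff μ).1 hμ).1 x x.2 y y.2 hne i j]
    have h4 := dl_swap A (fun t => (i t : ℕ)) x.2 y.2 hne
    have h5 : (fun t => (((i ∘ Equiv.swap (x : Fin n) (y : Fin n)) t : Fin k) : ℕ)) =
      (fun t => (i t : ℕ)) ∘ Equiv.swap (x : Fin n) (y : Fin n) := rfl
    rw [h5, h4]
    push_cast
    constructor <;> ring

theorem IsACCommutative.perm_C {μ : AlgStructure n k} (hμ : IsACCommutative A C μ)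
    (hAC : Disjoint A C) (σ : Equiv.Perm C) (j : Fin k) (i : Fin n → Fin k) :
      structureConstants μ (i ∘ Equiv.Perm.ofSubtype σ, j) = structureConstants μ (i, j) ∧
      dl A (fun t => ((i ∘ Equiv.Perm.ofSubtype σ) t : ℕ)) = dl A (fun t => (i t : ℕ)) := by
  constructor
  · induction σ using Equiv.Perm.swap_induction_on generalizing i with
    | one => simp
    | swap_mul f x y hxy ih =>
      have h1 : i ∘ Equiv.Perm.ofSubtype (Equiv.swap x y * f) =
          (i ∘ Equiv.swap (x : Fin n) (y : Fin n)) ∘ Equiv.Perm.ofSubtype f := by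
        rw [map_mul, Equiv.Perm.ofSubtype_swap_eq]
        rfl
      rw [h1, ih, ((isACCommutative_iff μ).1 hμ).2 x x.2 y y.2 i j]
  · refine dl_congr A fun r hr => ?_
    have h1 : r ∉ C := fun h => Finset.disjoint_left.1 hAC hr h
    simp only [Function.comp_apply]
    rw [Equiv.Perm.ofSubtype_apply_of_not_mem σ h1]

/-- Every strictly triangular `(A,C)`-commutative structure is in the image of the
parametrization. -/
theorem exists_bt {μ : AlgStructure n k} (hAC : Disjoint A C) (hμ : IsACCommutative A C μ)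
    (hs : IsStrict μ) : ∃ y : TauB A C k → ℂ, structureConstants μ = bt A C y := by
  classical
  have hsurj : ∀ q : TauB A C k, ∃ (i : Fin n → Fin (q.1 : ℕ)) (hi : Set.InjOn i A),
      orb C i hi = q.2 := fun q => orb_surjective hAC q.2
  choose rep hrep horb using hsurj
  let lift : ∀ q : TauB A C k, Fin n → Fin k := fun q t => Fin.castLE q.1.2.le (rep q t)
  refine ⟨fun q => structureConstants μ (lift q, q.1) /
    ((dl A (fun t => (lift q t : ℕ)) : ℤ) : ℂ), ?_⟩
  funext p
  obtain ⟨i, j⟩ := p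
  by_cases h : (∀ t, i t < j) ∧ Set.InjOn i A
  · rw [bt_eq _ h.1 h.2]
    set q : TauB A C k := ⟨j, orb C (low i j h.1) (low_injOn h.2)⟩ with hq
    have h1 : orb C (low i j h.1) (low_injOn h.2) = orb C (rep q) (hrep q) := (horb q).symm
    obtain ⟨σ, ρ, h2⟩ := exists_perm_of_orb_eq hAC h1
    have h3 : i = (lift q ∘ Equiv.Perm.ofSubtype σ) ∘ Equiv.Perm.ofSubtype ρ := by
      funext t
      have := congr_fun h2 t
      simp only [low, Function.comp_apply] at this
      simp only [lift, Function.comp_apply]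
      rw [← this]
      rfl
    obtain ⟨ε, hε, h4⟩ := hμ.perm_A σ j
    obtain ⟨h5, h6⟩ := h4 (lift q)
    obtain ⟨h7, h8⟩ := hμ.perm_C hAC ρ j (lift q ∘ Equiv.Perm.ofSubtype σ)
    have h9 : structureConstants μ (i, j) = ε * structureConstants μ (lift q, j) := by
      rw [h3, h7, h5]
    have h10 : dl A (fun t => (i t : ℕ)) = ε * dl A (fun t => (lift q t : ℕ)) := by
      rw [← h6, ← h8]
      congr 1
      funext t
      conv_lhs => rw [h3]
    have h11 : (dl A (fun t => (lift q t : ℕ))) ≠ 0 := by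
      rw [dl_ne_zero_iff]
      intro s hs' t ht hst
      apply hrep q hs' ht
      exact Fin.ext (by simpa [lift] using hst)
    have h12 : ((dl A (fun t => (lift q t : ℕ)) : ℤ) : ℂ) ≠ 0 := by exact_mod_cast h11
    rw [h9, h10]
    push_cast
    field_simp
    rfl
  · rw [bt_eq_zero _ h]
    by_cases hi : Set.InjOn i A
    · by_contra hcon
      exact h ⟨hs i j hcon, hi⟩
    · exact hμ.eq_zero_of_not_injOn hi j

/-- Every coordinate of the parametrization appears in an admissible entry. -/
theorem exists_index (hAC : Disjoint A C) (q : TauB A C k) :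
    ∃ (i : Fin n → Fin k) (h : ∀ t, i t < q.1) (hi : Set.InjOn i A),
      (⟨q.1, orb C (low i q.1 h) (low_injOn hi)⟩ : TauB A C k) = q := by
  obtain ⟨i, hi, ho⟩ := orb_surjective hAC q.2
  have h1 : ∀ t, Fin.castLE q.1.2.le (i t) < q.1 := fun t => (i t).2
  have h2 : Set.InjOn (fun t => Fin.castLE q.1.2.le (i t)) A := by
    intro s hs t ht hst
    apply hi hs ht
    simpa using hst
  refine ⟨fun t => Fin.castLE q.1.2.le (i t), h1, h2, ?_⟩
  have h3 : low (fun t => Fin.castLE q.1.2.le (i t)) q.1 h1 = i := by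
    funext t
    rfl
  have h4 : orb C (low (fun t => Fin.castLE q.1.2.le (i t)) q.1 h1) (low_injOn h2) = q.2 := ho
  rw [h4]

theorem card_tauB (hAC : Disjoint A C) : Fintype.card (TauB A C k) =
    ∑ p ∈ Finset.range k, p.choose A.card * p.multichoose C.card *
      p ^ (n - A.card - C.card) := by
  rw [Fintype.card_sigma]
  have h1 : ∀ j : Fin k, Fintype.card (Orb A C j) =
      (j : ℕ).choose A.card * (j : ℕ).multichoose C.card * (j : ℕ) ^ (n - A.card - C.card) := by
    intro j
    rw [Fintype.card_prod, Fintype.card_prod, Fintype.card_coe, Finset.card_powersetCard,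
      Finset.card_univ, Fintype.card_fin, Sym.card_sym_eq_multichoose, Fintype.card_fin,
      Fintype.card_fun, Fintype.card_fin, mul_assoc]
    congr 3
    rw [Fintype.card_subtype]
    have h2 : (Finset.univ.filter fun t : Fin n => t ∉ A ∧ t ∉ C) = (A ∪ C)ᶜ := by
      ext t
      simp
    rw [h2, Finset.card_compl, Finset.card_union_of_disjoint hAC, Fintype.card_fin]
    omega
  simp only [h1]
  rw [Finset.sum_range]

end bt

end Pool.Agent.NilpotentNAry
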