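import Mathlib
import Pool.Agent.NilpotentNAry.Tensor
import Pool.Agent.NilpotentNAry.Flag
import Pool.Agent.NilpotentNAry.Param

set_option autoImplicit false

/-!
# A dense chart of the variety of nilpotent `(A,C)`-commutative structures
-/

namespace Pool.Agent.NilpotentNAry

open Matrix

section uMat

variable {k : ℕ} (a : ℕ)

/-- The index set of the free entries of the unipotent matrices of the chart. -/
abbrev TauU (a k : ℕ) : Type := {p : Fin k × Fin k // p.1 < p.2 ∧ a ≤ (p.2 : ℕ)}

/-- Unipotent upper triangular matrices whose first `a` columns are trivial. -/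
def uMat {R : Type*} [CommRing R] (ν : TauU a k → R) : Matrix (Fin k) (Fin k) R :=
  fun i j => if h : i < j ∧ a ≤ (j : ℕ) then ν ⟨(i, j), h⟩ else if i = j then 1 else 0

theorem map_uMat {R S : Type*} [CommRing R] [CommRing S] (f : R →+* S) (ν : TauU a k → R) :
    (uMat a ν).map f = uMat a (fun p => f (ν p)) := by
  ext i j
  simp only [map_apply, uMat]
  split_ifs <;> simp

theorem det_uMat {R : Type*} [CommRing R] (ν : TauU a k → R) : (uMat a ν).det = 1 := by
  have h1 : (uMat a ν).BlockTriangular id := by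
    intro i j hij
    have h2 : ¬ i < j := not_lt.2 (le_of_lt hij)
    have h3 : i ≠ j := fun h => by
      rw [h] at hij
      exact lt_irrefl _ hij
    simp [uMat, h2, h3]
  rw [det_of_isUpperTriangular h1]
  refine Finset.prod_eq_one fun i _ => ?_
  simp [uMat]

theorem adjugate_mul_uMat {R : Type*} [CommRing R] (ν : TauU a k → R) :
    (uMat a ν).adjugate * uMat a ν = 1 := by
  rw [adjugate_mul, det_uMat, one_smul]

/-- Matrices preserving the members of codimension at least `a` of the standard flag. -/
def LowerTri (W : Matrix (Fin k) (Fin k) ℂ) : Prop := ∀ j l : Fin k, j < l → a ≤ (l : ℕ) → W j l = 0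

variable {a}

theorem LowerTri.mulVec_mem {W : Matrix (Fin k) (Fin k) ℂ} (hW : LowerTri a W) {q : ℕ}
    (hq : a ≤ q) {x : Fin k → ℂ} (hx : x ∈ VV k q) : W *ᵥ x ∈ VV k q := by
  intro j hj
  rw [mulVec, dotProduct]
  refine Finset.sum_eq_zero fun l _ => ?_
  by_cases hl : (l : ℕ) < q
  · rw [hx l hl, mul_zero]
  · push Not at hl
    rw [hW j l (by
      rw [Fin.lt_def]
      omega) (by omega), zero_mul]

theorem lowerTri_iff_blockTriangular (W : Matrix (Fin k) (Fin k) ℂ) :
    LowerTri a W ↔ W.BlockTriangular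
      (fun i : Fin k => OrderDual.toDual (max ((i : ℕ) + 1) a)) := by
  constructor
  · intro h i j hij
    have hij' : max ((i : ℕ) + 1) a < max ((j : ℕ) + 1) a := hij
    apply h i j
    · rw [Fin.lt_def]
      omega
    · omega
  · intro h i j hij ha
    apply h
    change max ((i : ℕ) + 1) a < max ((j : ℕ) + 1) a
    rw [Fin.lt_def] at hij
    omega

theorem LowerTri.inv {W V : Matrix (Fin k) (Fin k) ℂ} (hW : LowerTri a W) (hVW : V * W = 1) :
    LowerTri a V := by
  have h1 : V = W⁻¹ := (Matrix.inv_eq_left_inv hVW).symm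
  have h2 : Invertible W := ⟨V, hVW, mul_eq_one_comm.1 hVW⟩
  rw [h1, lowerTri_iff_blockTriangular]
  exact blockTriangular_inv_of_blockTriangular ((lowerTri_iff_blockTriangular W).1 hW)

theorem IsStrict.apply_mem_VV_card {n : ℕ} {A C : Finset (Fin n)} {μ : AlgStructure n k}
    (hs : IsStrict μ) (hμ : IsACCommutative A C μ) (x : Fin n → (Fin k → ℂ)) :
    μ x ∈ VV k A.card := by
  intro j hj
  rw [apply_eq_sum]
  refine Finset.sum_eq_zero fun i _ => ?_
  by_cases hi : Set.InjOn i A
  · by_cases h : structureConstants μ (i, j) = 0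
    · rw [h, mul_zero]
    · exfalso
      have h1 := hs i j h
      have h2 : A.card ≤ (Finset.range (j : ℕ)).card := by
        apply Finset.card_le_card_of_injOn (fun t => (i t : ℕ))
        · intro t _
          exact Finset.mem_coe.2 (Finset.mem_range.2 (h1 t))
        · intro s hs t ht hst
          exact hi hs ht (Fin.ext hst)
      rw [Finset.card_range] at h2
      omega
  · rw [hμ.eq_zero_of_not_injOn hi, mul_zero]

theorem IsStrict.conj_lowerTri {n : ℕ} {A C : Finset (Fin n)} {μ : AlgStructure n k}
    (hs : IsStrict μ) (hμ : IsACCommutative A C μ) {W V : Matrix (Fin k) (Fin k) ℂ}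
    (hW : LowerTri A.card W) (hVW : V * W = 1) : IsStrict (conj V W μ) := by
  have hV := hW.inv hVW
  rw [isStrict_iff]
  intro x t q hx
  rw [conj_apply]
  by_cases hq : A.card ≤ q
  · exact hV.mulVec_mem (by omega) (hs.apply_mem _ t q (hW.mulVec_mem hq hx))
  · have h1 := hV.mulVec_mem le_rfl (hs.apply_mem_VV_card hμ fun t => W *ᵥ x t)
    exact VV_anti (by omega) h1

end uMat

/-! ### Factorization of generic matrices -/

section factor

variable {k : ℕ} {a : ℕ}

/-- The trailing minors. -/
def trailing (H : Matrix (Fin k) (Fin k) ℂ) (q : Fin k) :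
    Matrix {i : Fin k // q ≤ i} {i : Fin k // q ≤ i} ℂ :=
  H.submatrix Subtype.val Subtype.val

theorem exists_factorization (a : ℕ) (H H' : Matrix (Fin k) (Fin k) ℂ) (hH : H' * H = 1)
    (hmin : ∀ q, (trailing H q).det ≠ 0) :
    ∃ (ν : TauU a k → ℂ) (W : Matrix (Fin k) (Fin k) ℂ), LowerTri a W ∧ H * W = uMat a ν := by
  classical
  have hHH' : H * H' = 1 := mul_eq_one_comm.1 hH
  let W : Matrix (Fin k) (Fin k) ℂ := fun l q =>
    if a ≤ (q : ℕ) then (if h : q ≤ l then (trailing H q)⁻¹ ⟨l, h⟩ ⟨q, le_rfl⟩ else 0)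
    else H' l q
  have hW : LowerTri a W := by
    intro j l hjl hal
    simp only [W, if_pos hal, dif_neg (not_le.2 hjl)]
  refine ⟨fun p => (H * W) p.1.1 p.1.2, W, hW, ?_⟩
  ext j q
  by_cases haq : a ≤ (q : ℕ)
  · by_cases hjq : j < q
    · simp only [uMat]
      rw [dif_pos ⟨hjq, haq⟩]
    · push Not at hjq
      have h1 : (H * W) j q = ∑ l : {l : Fin k // q ≤ l},
          (trailing H q) ⟨j, hjq⟩ l * (trailing H q)⁻¹ l ⟨q, le_rfl⟩ := by
        rw [Matrix.mul_apply]
        have h2 : ∀ l : Fin k, H j l * W l q =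
            if h : q ≤ l then (trailing H q) ⟨j, hjq⟩ ⟨l, h⟩ *
              (trailing H q)⁻¹ ⟨l, h⟩ ⟨q, le_rfl⟩ else 0 := by
          intro l
          by_cases hl : q ≤ l
          · simp only [W, if_pos haq, dif_pos hl, trailing, submatrix_apply]
          · simp only [W, if_pos haq, dif_neg hl, mul_zero]
        simp only [h2]
        rw [Finset.sum_dite]
        simp only [Finset.sum_const_zero, add_zero]
        symm
        refine Fintype.sum_equiv (Equiv.subtypeEquivRight (by simp)) _ _ fun l => ?_
        rfl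
      have h3 : (trailing H q) * (trailing H q)⁻¹ = 1 :=
        Matrix.mul_nonsing_inv _ (isUnit_iff_ne_zero.2 (hmin q))
      have h4 : (H * W) j q = (1 : Matrix {i : Fin k // q ≤ i} {i : Fin k // q ≤ i} ℂ)
          ⟨j, hjq⟩ ⟨q, le_rfl⟩ := by
        rw [h1, ← h3, Matrix.mul_apply]
      rw [h4]
      simp only [uMat]
      rw [dif_neg (fun h => absurd h.1 (not_lt.2 hjq)), Matrix.one_apply]
      simp [Subtype.ext_iff]
  · have h1 : (H * W) j q = (H * H') j q := by
      rw [Matrix.mul_apply, Matrix.mul_apply]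
      refine Finset.sum_congr rfl fun l _ => ?_
      simp only [W, if_neg haq]
    rw [h1, hHH', Matrix.one_apply]
    simp only [uMat]
    rw [dif_neg (fun h => haq h.2)]

end factor

/-! ### The chart -/

section chart

variable {n k : ℕ} (A C : Finset (Fin n))

/-- The polynomial chart of the variety. -/
noncomputable def chart {R : Type*} [CommRing R] (z : TauU A.card k ⊕ TauB A C k → R) :
    (Fin n → Fin k) × Fin k → R :=
  act (uMat A.card (fun p => z (Sum.inl p))) (uMat A.card (fun p => z (Sum.inl p))).adjugate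
    (bt A C (fun q => z (Sum.inr q)))

variable {A C}

theorem map_chart {R S : Type*} [CommRing R] [CommRing S] (f : R →+* S)
    (z : TauU A.card k ⊕ TauB A C k → R) (p : (Fin n → Fin k) × Fin k) :
    f (chart A C z p) = chart A C (fun q => f (z q)) p := by
  unfold chart
  rw [map_act]
  congr 1
  · exact map_uMat _ f _
  · rw [← map_uMat A.card f]
    exact RingHom.map_adjugate f _
  · funext q
    exact map_bt f _ q

theorem chart_mem (hn : 0 < n) (hAC : Disjoint A C) (z : TauU A.card k ⊕ TauB A C k → ℂ) :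
    chart A C z ∈ nilpotentVariety n k A C := by
  have h1 := isACCommutative_bt hAC (fun q => z (Sum.inr q))
  have h2 := isStrict_bt (fun q => z (Sum.inr q))
  refine ⟨conj (uMat A.card (fun p => z (Sum.inl p))) (uMat A.card (fun p => z (Sum.inl p))).adjugate
    (ofConstants (bt A C (fun q => z (Sum.inr q)))), h1.conj _ _,
    (h2.isNilpotentAlg hn).conj (adjugate_mul_uMat _ _), ?_⟩
  rw [structureConstants_conj, structureConstants_ofConstants]
  rfl

theorem act_mem_range_chart (hAC : Disjoint A C) {μ : AlgStructure n k}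
    (hμ : IsACCommutative A C μ) (hs : IsStrict μ) {H H' : Matrix (Fin k) (Fin k) ℂ}
    (hH : H' * H = 1) (hmin : ∀ q, (trailing H q).det ≠ 0) :
    act H H' (structureConstants μ) ∈
      Set.range (chart A C : (TauU A.card k ⊕ TauB A C k → ℂ) → _) := by
  obtain ⟨ν, W, hW, hHW⟩ := exists_factorization A.card H H' hH hmin
  set U := uMat A.card ν with hU
  have h1 : U.adjugate * U = 1 := adjugate_mul_uMat _ ν
  have h1' : U * U.adjugate = 1 := mul_eq_one_comm.1 h1
  have hVW : (U.adjugate * H) * W = 1 := by rw [Matrix.mul_assoc, hHW, h1]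
  have hs' := hs.conj_lowerTri hμ hW hVW
  obtain ⟨y, hy⟩ := exists_bt hAC (hμ.conj (U.adjugate * H) W) hs'
  refine ⟨Sum.elim ν y, ?_⟩
  have h2 : chart A C (Sum.elim ν y) = act U U.adjugate (bt A C y) := rfl
  rw [h2, ← hy, ← structureConstants_conj, conj_conj, ← structureConstants_conj]
  congr 2
  · rw [← Matrix.mul_assoc, h1', Matrix.one_mul]
  · calc W * U.adjugate = (H' * H) * (W * U.adjugate) := by rw [hH, Matrix.one_mul]
      _ = H' * ((H * W) * U.adjugate) := by simp only [Matrix.mul_assoc]
      _ = H' := by rw [hHW, h1', Matrix.mul_one]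

theorem finite_det_eq_zero {ι : Type*} [Fintype ι] [DecidableEq ι] (M : Matrix ι ι ℂ) :
    {t : ℂ | ((1 - t) • (1 : Matrix ι ι ℂ) + t • M).det = 0}.Finite := by
  let P : Matrix ι ι (Polynomial ℂ) :=
    ((1 : Polynomial ℂ) - Polynomial.X) • (1 : Matrix ι ι (Polynomial ℂ)) +
      (Polynomial.X : Polynomial ℂ) • M.map Polynomial.C
  have hP : ∀ t : ℂ, P.det.eval t = ((1 - t) • (1 : Matrix ι ι ℂ) + t • M).det := by
    intro t
    rw [← Polynomial.coe_evalRingHom, RingHom.map_det]
    congr 1
    ext i j
    by_cases hij : i = j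
    · subst hij
      simp [P, Matrix.add_apply]
      ring
    · simp [P, Matrix.add_apply, hij]
      ring
  have h0 : P.det ≠ 0 := by
    intro h
    have := hP 0
    rw [h] at this
    simp at this
  have h1 : {t : ℂ | ((1 - t) • (1 : Matrix ι ι ℂ) + t • M).det = 0} ⊆
      (P.det.roots.toFinset : Set ℂ) := by
    intro t ht
    simp only [Finset.mem_coe, Multiset.mem_toFinset, Polynomial.mem_roots h0, Polynomial.IsRoot]
    rw [hP]
    exact ht
  exact (Finset.finite_toSet _).subset h1

theorem mem_closure_chart (hAC : Disjoint A C) {μ : AlgStructure n k}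
    (hμ : IsACCommutative A C μ) (hnil : IsNilpotentAlg μ) :
    structureConstants μ ∈
      closure (Set.range (chart A C : (TauU A.card k ⊕ TauB A C k → ℂ) → _)) := by
  obtain ⟨g, h, hhg, hs⟩ := exists_isStrict_conj hnil
  set b := conj g h μ with hb
  have hbAC : IsACCommutative A C b := hμ.conj g h
  have hμb : μ = conj h g b := by
    rw [hb, conj_conj, hhg, conj_one]
  let H : ℂ → Matrix (Fin k) (Fin k) ℂ := fun t => (1 - t) • 1 + t • h
  let f : ℂ → ((Fin n → Fin k) × Fin k → ℂ) := fun t =>
    act (H t) ((H t).det⁻¹ • (H t).adjugate) (structureConstants b)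
  have hH1 : H 1 = h := by simp [H]
  have hdet : h.det ≠ 0 := by
    have h1 : h.det * g.det = 1 := by rw [← det_mul, hhg, det_one]
    exact left_ne_zero_of_mul_eq_one h1
  have hinv : h.det⁻¹ • h.adjugate = g := by
    have h1 : (h.det⁻¹ • h.adjugate) * h = 1 := by
      rw [smul_mul, adjugate_mul, smul_smul, inv_mul_cancel₀ hdet, one_smul]
    calc h.det⁻¹ • h.adjugate = (h.det⁻¹ • h.adjugate) * (h * g) := by rw [hhg, Matrix.mul_one]
      _ = g := by rw [← Matrix.mul_assoc, h1, Matrix.one_mul]
  have hf1 : f 1 = structureConstants μ := by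
    simp only [f, hH1, hinv]
    conv_rhs => rw [hμb, structureConstants_conj]
  have hHcont : Continuous H := by
    have h1 : Continuous fun t : ℂ => (1 - t) • (1 : Matrix (Fin k) (Fin k) ℂ) :=
      (continuous_const.sub continuous_id).smul continuous_const
    exact h1.add (continuous_id.smul continuous_const)
  have hfcont : ContinuousAt f 1 := by
    have h1 : ContinuousAt (fun t => (H t).det⁻¹ • (H t).adjugate) 1 := by
      refine ContinuousAt.smul (ContinuousAt.inv₀ hHcont.matrix_det.continuousAt ?_)
        hHcont.matrix_adjugate.continuousAt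
      rw [hH1]; exact hdet
    rw [continuousAt_pi]
    intro p
    simp only [f, act]
    refine tendsto_finsetSum _ fun j' _ => tendsto_finsetSum _ fun i' _ => ?_
    refine Filter.Tendsto.mul ?_ (Filter.Tendsto.mul tendsto_const_nhds ?_)
    · exact ((continuous_id.matrix_elem p.2 j').comp hHcont).continuousAt
    · refine tendsto_finsetProd _ fun t _ => ?_
      exact ((continuous_id.matrix_elem (i' t) (p.1 t)).continuousAt.comp h1)
  -- the good parameters
  let Good : Set ℂ := {t | (H t).det ≠ 0 ∧ ∀ q, (trailing (H t) q).det ≠ 0}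
  have hGood : Goodᶜ.Finite := by
    have h1 : Goodᶜ ⊆ {t : ℂ | ((1 - t) • (1 : Matrix (Fin k) (Fin k) ℂ) + t • h).det = 0} ∪
        ⋃ q : Fin k, {t : ℂ | ((1 - t) • (1 : Matrix {i : Fin k // q ≤ i} {i : Fin k // q ≤ i} ℂ) +
          t • trailing h q).det = 0} := by
      intro t ht
      simp only [Good, Set.mem_compl_iff, Set.mem_ofPred_eq, not_and_or, not_forall, not_not] at ht
      rcases ht with ht | ⟨q, hq⟩
      · exact Or.inl ht
      · right
        refine Set.mem_iUnion.2 ⟨q, ?_⟩
        have h2 : trailing (H t) q = (1 - t) • (1 : Matrix {i : Fin k // q ≤ i} {i : Fin k // q ≤ i} ℂ)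
            + t • trailing h q := by
          ext i j
          simp [trailing, H, Matrix.one_apply, Subtype.ext_iff]
        simp only [Set.mem_ofPred_eq]
        rw [← h2]
        exact hq
    refine Set.Finite.subset ?_ h1
    exact (finite_det_eq_zero h).union (Set.finite_iUnion fun q => finite_det_eq_zero _)
  have hdense : (1 : ℂ) ∈ closure Good := by
    have h1 : Dense (Goodᶜ)ᶜ := Set.Countable.dense_compl ℂ hGood.countable
    rw [compl_compl] at h1
    exact h1 1
  have h1 : f 1 ∈ closure (f '' Good) :=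
    hfcont.continuousWithinAt.mem_closure_image hdense
  rw [hf1] at h1
  refine closure_mono ?_ h1
  rintro _ ⟨t, ht, rfl⟩
  refine act_mem_range_chart hAC hbAC hs ?_ ht.2
  rw [smul_mul, adjugate_mul, smul_smul, inv_mul_cancel₀ ht.1, one_smul]

end chart

end Pool.Agent.NilpotentNAry
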