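import Mathlib
import Pool.Agent.NilpotentNAry.Chart

set_option autoImplicit false

/-!
# The differential of the chart is injective at a suitable point
-/

namespace Pool.Agent.NilpotentNAry

open Matrix MvPolynomial

section dual

variable {τ : Type*} [Fintype τ]

/-- First order Taylor expansion. -/
theorem aeval_dualNumber (pt ξ : τ → ℂ) (f : MvPolynomial τ ℂ) :
    aeval (fun i => (TrivSqZeroExt.inl (pt i) + TrivSqZeroExt.inr (ξ i) : DualNumber ℂ)) f =
      TrivSqZeroExt.inl (eval pt f) +
        TrivSqZeroExt.inr (∑ i, ξ i * eval pt (pderiv i f)) := by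
  classical
  induction f using MvPolynomial.induction_on with
  | C a =>
    simp only [aeval_C, eval_C, pderiv_C, map_zero, mul_zero, Finset.sum_const_zero]
    ext <;> simp [TrivSqZeroExt.algebraMap_eq_inl]
  | add p q hp hq =>
    rw [map_add, hp, hq]
    ext
    · simp
    · simp [mul_add, Finset.sum_add_distrib]
  | mul_X p n ih =>
    rw [map_mul, ih, aeval_X]
    ext
    · simp
    · simp only [pderiv_mul, pderiv_X, map_add, map_mul, eval_X, mul_add,
        Finset.sum_add_distrib]
      have h1 : ∑ x, ξ x * (eval pt p * eval pt (Pi.single (M := fun _ => MvPolynomial τ ℂ) x 1 n)) =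
          ξ n * eval pt p := by
        rw [Finset.sum_eq_single n]
        · simp
        · intro j _ hj
          simp [hj.symm]
        · simp
      rw [h1]
      simp only [TrivSqZeroExt.snd_mul, TrivSqZeroExt.fst_add, TrivSqZeroExt.fst_inl,
        TrivSqZeroExt.fst_inr, add_zero, TrivSqZeroExt.snd_add, TrivSqZeroExt.snd_inl,
        TrivSqZeroExt.snd_inr, zero_add, smul_eq_mul, MulOpposite.smul_eq_mul_unop,
        MulOpposite.unop_op]
      have h2 : ∑ x, ξ x * (eval pt (pderiv x p) * pt n) =
          (∑ x, ξ x * eval pt (pderiv x p)) * pt n := by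
        rw [Finset.sum_mul]
        exact Finset.sum_congr rfl fun i _ => by ring
      rw [h2]
      ring

end dual

/-! ### The base tuple -/

section base

variable {n k : ℕ}

theorem rank_lt {A : Finset (Fin n)} {s t : Fin n} (hs : s ∈ A) (hst : s < t) :
    (A.filter (· < s)).card < (A.filter (· < t)).card := by
  apply Finset.card_lt_card
  rw [Finset.ssubset_iff_of_subset]
  · exact ⟨s, by simp [hs, hst], by simp⟩
  · intro r hr
    rw [Finset.mem_filter] at hr ⊢
    exact ⟨hr.1, hr.2.trans hst⟩

theorem rank_lt_card {A : Finset (Fin n)} {s : Fin n} (hs : s ∈ A) :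
    (A.filter (· < s)).card < A.card := by
  apply Finset.card_lt_card
  rw [Finset.ssubset_iff_of_subset (Finset.filter_subset _ _)]
  exact ⟨s, hs, by simp⟩

theorem exists_base (hn : 0 < n) (A : Finset (Fin n)) (hk : max A.card 1 - 1 < k) :
    ∃ (i0 : Fin n → Fin k) (t0 : Fin n),
      (∀ t, t ≠ t0 → (i0 t : ℕ) < A.card ∨ (i0 t : ℕ) = 0) ∧
      ∀ s : Fin k, max A.card 1 - 1 ≤ (s : ℕ) → Set.InjOn (Function.update i0 t0 s) A := by
  classical
  have hk0 : 0 < k := by omega
  let i0 : Fin n → Fin k := fun t =>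
    if h : t ∈ A then ⟨(A.filter (· < t)).card, by
      have := rank_lt_card h
      omega⟩
    else ⟨0, hk0⟩
  have hi0 : ∀ t, t ∈ A → (i0 t : ℕ) = (A.filter (· < t)).card := by
    intro t ht
    simp only [i0, dif_pos ht]
  have hi0' : ∀ t, t ∉ A → (i0 t : ℕ) = 0 := by
    intro t ht
    simp only [i0, dif_neg ht]
  have hrange : ∀ t, (i0 t : ℕ) < A.card ∨ (i0 t : ℕ) = 0 := by
    intro t
    by_cases ht : t ∈ A
    · left
      rw [hi0 t ht]
      exact rank_lt_card ht
    · right
      exact hi0' t ht
  have hinj : Set.InjOn i0 A := by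
    intro s hs t ht hst
    have h1 : (i0 s : ℕ) = (i0 t : ℕ) := congrArg Fin.val hst
    rw [hi0 s hs, hi0 t ht] at h1
    rcases lt_trichotomy s t with h | h | h
    · exact absurd h1 (rank_lt hs h).ne
    · exact h
    · exact absurd h1 (rank_lt ht h).ne'
  by_cases hA : A = Finset.univ
  · refine ⟨i0, ⟨n - 1, by omega⟩, fun t _ => hrange t, ?_⟩
    set t0 : Fin n := ⟨n - 1, by omega⟩ with ht0
    have ht0A : t0 ∈ A := by rw [hA]; exact Finset.mem_univ _
    have hlt : ∀ t, t ≠ t0 → t < t0 := by
      intro t ht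
      rw [Fin.lt_def]
      have h1 : (t : ℕ) ≠ n - 1 := fun h => ht (Fin.ext h)
      have h2 := t.2
      simp only [ht0]
      omega
    have hsmall : ∀ t, t ≠ t0 → (i0 t : ℕ) < max A.card 1 - 1 := by
      intro t ht
      have htA : t ∈ A := by rw [hA]; exact Finset.mem_univ _
      rw [hi0 t htA]
      have h1 := rank_lt htA (hlt t ht)
      have h2 := rank_lt_card ht0A
      omega
    intro s hs t ht r hr htr
    by_cases h1 : t = t0
    · by_cases h2 : r = t0
      · rw [h1, h2]
      · exfalso
        rw [h1, Function.update_self, Function.update_of_ne h2] at htr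
        have := hsmall r h2
        rw [← htr] at this
        omega
    · by_cases h2 : r = t0
      · exfalso
        rw [h2, Function.update_self, Function.update_of_ne h1] at htr
        have := hsmall t h1
        rw [htr] at this
        omega
      · rw [Function.update_of_ne h1, Function.update_of_ne h2] at htr
        exact hinj ht hr htr
  · obtain ⟨t0, ht0⟩ : ∃ t0, t0 ∉ A := by
      by_contra hcon
      push Not at hcon
      exact hA (Finset.eq_univ_iff_forall.2 hcon)
    refine ⟨i0, t0, fun t _ => hrange t, ?_⟩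
    intro s _ t ht r hr htr
    have h1 : t ≠ t0 := fun h => ht0 (h ▸ ht)
    have h2 : r ≠ t0 := fun h => ht0 (h ▸ hr)
    rw [Function.update_of_ne h1, Function.update_of_ne h2] at htr
    exact hinj ht hr htr

end base

/-! ### The special point -/

section special

variable {n k : ℕ} {A C : Finset (Fin n)}

theorem sum_eq_of_orb_eq {p : ℕ} {i i' : Fin n → Fin p} {hi : Set.InjOn i A}
    {hi' : Set.InjOn i' A} (hAC : Disjoint A C) (h : orb C i hi = orb C i' hi') :
    ∑ t, (i t : ℕ) = ∑ t, (i' t : ℕ) := by
  obtain ⟨σ, ρ, h1⟩ := exists_perm_of_orb_eq hAC h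
  have h2 : ∀ t, i t = i' ((Equiv.Perm.ofSubtype σ) ((Equiv.Perm.ofSubtype ρ) t)) := by
    intro t
    have := congr_fun h1 t
    simpa using this
  simp only [h2]
  rw [Equiv.sum_comp (Equiv.Perm.ofSubtype ρ)
    (fun t => (i' ((Equiv.Perm.ofSubtype σ) t) : ℕ)),
    Equiv.sum_comp (Equiv.Perm.ofSubtype σ) (fun t => (i' t : ℕ))]

open Classical in
/-- The parameters of the special structure. -/
noncomputable def y0 (A C : Finset (Fin n)) (i0 : Fin n → Fin k) (t0 : Fin n) :
    TauB A C k → ℂ := fun q =>
  if ∃ s : Fin k, (s : ℕ) + 1 = q.1 ∧ max A.card 1 - 1 ≤ (s : ℕ) ∧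
    ∃ (h : ∀ t, Function.update i0 t0 s t < q.1) (hi : Set.InjOn (Function.update i0 t0 s) A),
      q = ⟨q.1, orb C (low (Function.update i0 t0 s) q.1 h) (low_injOn hi)⟩ then 1 else 0

theorem bt_y0 (hAC : Disjoint A C) {i0 : Fin n → Fin k} {t0 : Fin n}
    (h0 : ∀ t, t ≠ t0 → (i0 t : ℕ) < A.card ∨ (i0 t : ℕ) = 0)
    (h1 : ∀ s : Fin k, max A.card 1 - 1 ≤ (s : ℕ) → Set.InjOn (Function.update i0 t0 s) A)
    (s j : Fin k) :
    bt A C (y0 A C i0 t0) (Function.update i0 t0 s, j) =
      if (s : ℕ) + 1 = j ∧ max A.card 1 - 1 ≤ (s : ℕ) then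
        ((dl A (fun t => ((Function.update i0 t0 s t : Fin k) : ℕ)) : ℤ) : ℂ) else 0 := by
  classical
  by_cases hadm : (∀ t, Function.update i0 t0 s t < j) ∧ Set.InjOn (Function.update i0 t0 s) A
  · rw [bt_eq _ hadm.1 hadm.2]
    by_cases hs : (s : ℕ) + 1 = j ∧ max A.card 1 - 1 ≤ (s : ℕ)
    · rw [if_pos hs]
      have h2 : y0 A C i0 t0 ⟨j, orb C (low (Function.update i0 t0 s) j hadm.1)
          (low_injOn hadm.2)⟩ = 1 := by
        unfold y0
        rw [if_pos]
        exact ⟨s, hs.1, hs.2, hadm.1, hadm.2, rfl⟩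
      rw [h2, mul_one]
    · rw [if_neg hs]
      have h2 : y0 A C i0 t0 ⟨j, orb C (low (Function.update i0 t0 s) j hadm.1)
          (low_injOn hadm.2)⟩ = 0 := by
        unfold y0
        rw [if_neg]
        rintro ⟨s', hs'1, hs'2, h3, h4, h5⟩
        apply hs
        have h6 := eq_of_heq (Sigma.mk.inj h5).2
        have h7 := sum_eq_of_orb_eq hAC h6
        have h8 : s = s' := by
          simp only [low] at h7
          rw [← Finset.add_sum_erase _ _ (Finset.mem_univ t0),
            ← Finset.add_sum_erase _ _ (Finset.mem_univ t0)] at h7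
          have h9 : ∑ x ∈ Finset.univ.erase t0, ((Function.update i0 t0 s x : Fin k) : ℕ) =
              ∑ x ∈ Finset.univ.erase t0, ((Function.update i0 t0 s' x : Fin k) : ℕ) := by
            refine Finset.sum_congr rfl fun x hx => ?_
            rw [Finset.mem_erase] at hx
            rw [Function.update_of_ne hx.1, Function.update_of_ne hx.1]
          rw [h9, Function.update_self, Function.update_self] at h7
          exact Fin.ext (Nat.add_right_cancel h7)
        rw [h8]
        exact ⟨hs'1, hs'2⟩
      rw [h2, mul_zero]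
  · rw [bt_eq_zero _ hadm, if_neg]
    rintro ⟨hs1, hs2⟩
    apply hadm
    refine ⟨fun t => ?_, h1 s hs2⟩
    by_cases ht : t = t0
    · rw [ht, Function.update_self, Fin.lt_def]
      omega
    · rw [Function.update_of_ne ht, Fin.lt_def]
      rcases h0 t ht with h | h <;> omega

/-- If all the columns of `D` indexed by `i t`, `t ≠ t0`, are trivial, the sum in the definition of
the action collapses. -/
theorem sum_collapse {R : Type*} [CommRing R] (D : Matrix (Fin k) (Fin k) R)
    (i : Fin n → Fin k) (t0 : Fin n)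
    (hD : ∀ t, t ≠ t0 → ∀ l, D l (i t) = if l = i t then 1 else 0)
    (c : (Fin n → Fin k) → R) :
    ∑ i' : Fin n → Fin k, c i' * ∏ t, D (i' t) (i t) =
      ∑ s : Fin k, c (Function.update i t0 s) * D s (i t0) := by
  classical
  have h1 : ∀ i' : Fin n → Fin k, (∏ t, D (i' t) (i t)) =
      if i' = Function.update i t0 (i' t0) then D (i' t0) (i t0) else 0 := by
    intro i'
    split_ifs with h
    · rw [Finset.prod_eq_single t0]
      · intro t _ ht
        rw [hD t ht]
        have : i' t = i t := by
          have := congr_fun h t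
          rwa [Function.update_of_ne ht] at this
        rw [if_pos this]
      · simp
    · obtain ⟨t, ht⟩ : ∃ t, i' t ≠ Function.update i t0 (i' t0) t := by
        by_contra hcon
        push Not at hcon
        exact h (funext hcon)
      have ht0 : t ≠ t0 := by
        rintro rfl
        simp at ht
      rw [Function.update_of_ne ht0] at ht
      refine Finset.prod_eq_zero (Finset.mem_univ t) ?_
      rw [hD t ht0, if_neg ht]
  simp only [h1]
  have h2 : ∀ i' : Fin n → Fin k, c i' *
      (if i' = Function.update i t0 (i' t0) then D (i' t0) (i t0) else 0) =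
      ∑ s : Fin k, if i' = Function.update i t0 s then
        c (Function.update i t0 s) * D s (i t0) else 0 := by
    intro i'
    rw [Finset.sum_eq_single (i' t0)]
    · split_ifs with h
      · rw [← h]
      · rw [mul_zero]
    · intro s _ hs
      rw [if_neg]
      intro h
      apply hs
      have := congr_fun h t0
      rw [Function.update_self] at this
      exact this.symm
    · simp
  simp only [h2]
  rw [Finset.sum_comm]
  refine Finset.sum_congr rfl fun s _ => ?_
  simp

/-- The nilpotent part of the matrix with entries `ξ`. -/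
def nMat (a : ℕ) (ξ : TauU a k → ℂ) : Matrix (Fin k) (Fin k) ℂ :=
  fun i j => if h : i < j ∧ a ≤ (j : ℕ) then ξ ⟨(i, j), h⟩ else 0

theorem uMat_dual (a : ℕ) (ξ : TauU a k → ℂ) :
    uMat a (fun p => (TrivSqZeroExt.inr (ξ p) : DualNumber ℂ)) =
      1 + (nMat a ξ).map (TrivSqZeroExt.inr : ℂ → DualNumber ℂ) := by
  ext1 i j
  simp only [uMat, nMat, Matrix.add_apply, Matrix.one_apply, Matrix.map_apply]
  by_cases h : i < j ∧ a ≤ (j : ℕ)
  · rw [dif_pos h, dif_pos h, if_neg h.1.ne, zero_add]
  · rw [dif_neg h, dif_neg h]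
    split_ifs <;> simp

theorem adjugate_uMat_dual (a : ℕ) (ξ : TauU a k → ℂ) :
    (uMat a (fun p => (TrivSqZeroExt.inr (ξ p) : DualNumber ℂ))).adjugate =
      1 - (nMat a ξ).map (TrivSqZeroExt.inr : ℂ → DualNumber ℂ) := by
  set U := uMat a (fun p => (TrivSqZeroExt.inr (ξ p) : DualNumber ℂ)) with hU
  set N := (nMat a ξ).map (TrivSqZeroExt.inr : ℂ → DualNumber ℂ) with hN
  have h1 : N * N = 0 := by
    ext1 i j
    rw [Matrix.mul_apply]
    refine Finset.sum_eq_zero fun l _ => ?_
    simp only [hN, Matrix.map_apply]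
    exact TrivSqZeroExt.inr_mul_inr _ _ _
  have h2 : U * (1 - N) = 1 := by
    rw [hU, uMat_dual, ← hN]
    have : (1 + N) * (1 - N) = 1 - N * N := by noncomm_ring
    rw [this, h1, sub_zero]
  have h3 : U.adjugate * U = 1 := adjugate_mul_uMat _ _
  calc U.adjugate = U.adjugate * (U * (1 - N)) := by rw [h2, Matrix.mul_one]
    _ = 1 - N := by rw [← Matrix.mul_assoc, h3, Matrix.one_mul]

theorem snd_bt (pt ξ : TauB A C k → ℂ) (p : (Fin n → Fin k) × Fin k) :
    (bt A C (fun q => (TrivSqZeroExt.inl (pt q) + TrivSqZeroExt.inr (ξ q) : DualNumber ℂ)) p) =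
      TrivSqZeroExt.inl (bt A C pt p) + TrivSqZeroExt.inr (bt A C ξ p) := by
  unfold bt
  split_ifs with h
  · ext
    · simp
    · simp
  · ext <;> simp

/-- The first order part of the chart, at entries `(i, j)` all of whose indices except the one
at `t0` are killed by the nilpotent matrices. -/
theorem snd_chart (ν : TauU A.card k → ℂ) (y η : TauB A C k → ℂ) (i : Fin n → Fin k) (t0 : Fin n)
    (hi : ∀ t, t ≠ t0 → (i t : ℕ) < A.card ∨ (i t : ℕ) = 0) (j : Fin k) :
    (chart A C (Sum.elim (fun p => (TrivSqZeroExt.inr (ν p) : DualNumber ℂ))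
      (fun q => TrivSqZeroExt.inl (y q) + TrivSqZeroExt.inr (η q))) (i, j)).snd =
      bt A C η (i, j) + ∑ j', nMat A.card ν j j' * bt A C y (i, j') -
        ∑ s, bt A C y (Function.update i t0 s, j) * nMat A.card ν s (i t0) := by
  classical
  unfold chart
  simp only [Sum.elim_inl, Sum.elim_inr]
  rw [adjugate_uMat_dual, uMat_dual]
  set N := nMat A.card ν with hN
  unfold act
  have hD : ∀ t, t ≠ t0 → ∀ l, (1 - N.map (TrivSqZeroExt.inr : ℂ → DualNumber ℂ)) l (i t) =
      if l = i t then 1 else 0 := by
    intro t ht l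
    rw [Matrix.sub_apply, Matrix.one_apply, Matrix.map_apply]
    have h1 : N l (i t) = 0 := by
      rw [hN, nMat, dif_neg]
      rintro ⟨h2, h3⟩
      rw [Fin.lt_def] at h2
      rcases hi t ht with h4 | h4 <;> omega
    rw [h1, TrivSqZeroExt.inr_zero, sub_zero]
  have h2 : ∀ j' : Fin k, ∑ i' : Fin n → Fin k,
      (1 + N.map (TrivSqZeroExt.inr : ℂ → DualNumber ℂ)) j j' *
        (bt A C (fun q => (TrivSqZeroExt.inl (y q) + TrivSqZeroExt.inr (η q) : DualNumber ℂ))
          (i', j') * ∏ t, (1 - N.map (TrivSqZeroExt.inr : ℂ → DualNumber ℂ)) (i' t) (i t)) =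
      (1 + N.map (TrivSqZeroExt.inr : ℂ → DualNumber ℂ)) j j' *
        ∑ s, bt A C (fun q => (TrivSqZeroExt.inl (y q) + TrivSqZeroExt.inr (η q) : DualNumber ℂ))
          (Function.update i t0 s, j') *
          (1 - N.map (TrivSqZeroExt.inr : ℂ → DualNumber ℂ)) s (i t0) := by
    intro j'
    rw [← Finset.mul_sum]
    congr 1
    exact sum_collapse (1 - N.map (TrivSqZeroExt.inr : ℂ → DualNumber ℂ)) i t0 hD
      (fun i' => bt A C (fun q =>
        (TrivSqZeroExt.inl (y q) + TrivSqZeroExt.inr (η q) : DualNumber ℂ)) (i', j'))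
  simp only [h2]
  have h3 : ∀ j' : Fin k, ((1 + N.map (TrivSqZeroExt.inr : ℂ → DualNumber ℂ)) j j' *
        ∑ s, bt A C (fun q => (TrivSqZeroExt.inl (y q) + TrivSqZeroExt.inr (η q) : DualNumber ℂ))
          (Function.update i t0 s, j') *
          (1 - N.map (TrivSqZeroExt.inr : ℂ → DualNumber ℂ)) s (i t0)).snd =
      (if j = j' then (bt A C η (i, j') -
        ∑ s, bt A C y (Function.update i t0 s, j') * N s (i t0)) else 0) +
      N j j' * bt A C y (i, j') := by
    intro j'
    have h4 : (∑ s, bt A C (fun q =>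
          (TrivSqZeroExt.inl (y q) + TrivSqZeroExt.inr (η q) : DualNumber ℂ))
          (Function.update i t0 s, j') *
          (1 - N.map (TrivSqZeroExt.inr : ℂ → DualNumber ℂ)) s (i t0)) =
        TrivSqZeroExt.inl (bt A C y (i, j')) + TrivSqZeroExt.inr (bt A C η (i, j') -
          ∑ s, bt A C y (Function.update i t0 s, j') * N s (i t0)) := by
      simp only [snd_bt, Matrix.sub_apply, Matrix.one_apply, Matrix.map_apply]
      have h5 : ∀ s : Fin k, (TrivSqZeroExt.inl (bt A C y (Function.update i t0 s, j')) +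
          TrivSqZeroExt.inr (bt A C η (Function.update i t0 s, j')) : DualNumber ℂ) *
          ((if s = i t0 then 1 else 0) - TrivSqZeroExt.inr (N s (i t0))) =
          (if s = i t0 then (TrivSqZeroExt.inl (bt A C y (Function.update i t0 s, j')) +
            TrivSqZeroExt.inr (bt A C η (Function.update i t0 s, j')) : DualNumber ℂ) else 0) -
          TrivSqZeroExt.inr (bt A C y (Function.update i t0 s, j') * N s (i t0)) := by
        intro s
        rw [mul_sub]
        congr 1
        · split_ifs <;> simp
        · rw [add_mul, TrivSqZeroExt.inr_mul_inr, add_zero]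
          ext
          · simp
          · simp [mul_comm]
      simp only [h5]
      rw [Finset.sum_sub_distrib]
      rw [Finset.sum_ite_eq' Finset.univ (i t0)]
      simp only [Finset.mem_univ, if_true, Function.update_eq_self]
      rw [← TrivSqZeroExt.inr_sum, TrivSqZeroExt.inr_sub, add_sub_assoc]
    rw [h4, Matrix.add_apply, Matrix.one_apply, Matrix.map_apply]
    split_ifs with h6
    · simp
    · simp
  rw [TrivSqZeroExt.snd_sum]
  simp only [h3]
  rw [Finset.sum_add_distrib, Finset.sum_ite_eq Finset.univ j]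
  simp only [Finset.mem_univ, if_true]
  ring

theorem act_one_one {R : Type*} [CommRing R] (c : (Fin n → Fin k) × Fin k → R) :
    act 1 1 c = c := by
  classical
  funext p
  obtain ⟨i, j⟩ := p
  unfold act
  rw [Finset.sum_eq_single j]
  · rw [Finset.sum_eq_single i]
    · simp
    · intro i' _ hi'
      obtain ⟨t, ht⟩ : ∃ t, i' t ≠ i t := by
        by_contra hcon
        push Not at hcon
        exact hi' (funext hcon)
      have h1 : ∏ t, (1 : Matrix (Fin k) (Fin k) R) (i' t) (i t) = 0 := by
        refine Finset.prod_eq_zero (Finset.mem_univ t) ?_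
        rw [Matrix.one_apply, if_neg ht]
      simp only [h1, mul_zero]
    · simp
  · intro j' _ hj'
    refine Finset.sum_eq_zero fun i' _ => ?_
    rw [Matrix.one_apply, if_neg hj'.symm, zero_mul]
  · simp

theorem chart_dual (pt ξ : TauU A.card k ⊕ TauB A C k → ℂ) (s : (Fin n → Fin k) × Fin k) :
    chart A C (fun q => (TrivSqZeroExt.inl (pt q) + TrivSqZeroExt.inr (ξ q) : DualNumber ℂ)) s =
      TrivSqZeroExt.inl (eval pt (chart A C (fun q => X q) s)) +
        TrivSqZeroExt.inr (∑ i, ξ i * eval pt (pderiv i (chart A C (fun q => X q) s))) := by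
  rw [← aeval_dualNumber]
  have h1 := map_chart (aeval (fun i => (TrivSqZeroExt.inl (pt i) + TrivSqZeroExt.inr (ξ i) :
    DualNumber ℂ)) : MvPolynomial (TauU A.card k ⊕ TauB A C k) ℂ →ₐ[ℂ] DualNumber ℂ).toRingHom
    (fun q => X q) s
  simp only [AlgHom.toRingHom_eq_coe, RingHom.coe_coe, aeval_X] at h1
  exact h1.symm

theorem differential_injective (hn : 0 < n) (hAC : Disjoint A C) :
    ∃ pt : TauU A.card k ⊕ TauB A C k → ℂ, ∀ ξ : TauU A.card k ⊕ TauB A C k → ℂ,
      (∀ s, ∑ i, ξ i * eval pt (pderiv i (chart A C (fun q => X q) s)) = 0) → ξ = 0 := by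
  classical
  by_cases hk : max A.card 1 - 1 < k
  · obtain ⟨i0, t0, h0, h1⟩ := exists_base hn A hk
    refine ⟨Sum.elim 0 (y0 A C i0 t0), fun ξ hξ => ?_⟩
    set ν : TauU A.card k → ℂ := fun p => ξ (Sum.inl p) with hν
    set η : TauB A C k → ℂ := fun p => ξ (Sum.inr p) with hη
    have hw : (fun q => (TrivSqZeroExt.inl ((Sum.elim 0 (y0 A C i0 t0) :
          TauU A.card k ⊕ TauB A C k → ℂ) q) + TrivSqZeroExt.inr (ξ q) : DualNumber ℂ)) =
        Sum.elim (fun p => (TrivSqZeroExt.inr (ν p) : DualNumber ℂ))
          (fun q => TrivSqZeroExt.inl (y0 A C i0 t0 q) + TrivSqZeroExt.inr (η q)) := by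
      funext q
      rcases q with q | q
      · simp [hν]
      · simp [hη]
    have hsnd : ∀ s, (chart A C (Sum.elim (fun p => (TrivSqZeroExt.inr (ν p) : DualNumber ℂ))
          (fun q => TrivSqZeroExt.inl (y0 A C i0 t0 q) + TrivSqZeroExt.inr (η q))) s).snd = 0 := by
      intro s
      rw [← hw, chart_dual, hξ s]
      simp
    set N := nMat A.card ν with hN
    -- the key relation
    have key : ∀ q j : Fin k, max A.card 1 - 1 ≤ (q : ℕ) → j ≤ q →
        ∑ j', N j j' * bt A C (y0 A C i0 t0) (Function.update i0 t0 q, j') =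
          ∑ s, bt A C (y0 A C i0 t0) (Function.update i0 t0 s, j) * N s q := by
      intro q j _ hjq
      have h2 := snd_chart ν (y0 A C i0 t0) η (Function.update i0 t0 q) t0 (by
        intro t ht
        rw [Function.update_of_ne ht]
        exact h0 t ht) j
      rw [hsnd] at h2
      have h3 : bt A C η (Function.update i0 t0 q, j) = 0 := by
        apply bt_eq_zero
        rintro ⟨h4, -⟩
        have := h4 t0
        rw [Function.update_self] at this
        exact absurd this (not_lt.2 hjq)
      rw [h3, zero_add, Function.update_self] at h2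
      simp only [Function.update_idem] at h2
      exact (sub_eq_zero.1 h2.symm)
    have hNzero : ∀ m : ℕ, ∀ s l : Fin k, (s : ℕ) = m → s < l → A.card ≤ (l : ℕ) → N s l = 0 := by
      intro m
      induction m using Nat.strong_induction_on with
      | _ m ih =>
        intro s l hsm hsl hal
        have hl0 : 0 < (l : ℕ) := lt_of_le_of_lt (Nat.zero_le _) hsl
        let q : Fin k := ⟨l - 1, by have := l.2; omega⟩
        have hqv : (q : ℕ) = l - 1 := rfl
        have hmq : max A.card 1 - 1 ≤ (q : ℕ) := by
          rw [hqv]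
          omega
        have hsq : s ≤ q := by
          rw [Fin.le_def, hqv]
          rw [Fin.lt_def] at hsl
          omega
        have h2 := key q s hmq hsq
        have h3 : ∑ j', N s j' * bt A C (y0 A C i0 t0) (Function.update i0 t0 q, j') =
            N s l * ((dl A (fun t => ((Function.update i0 t0 q t : Fin k) : ℕ)) : ℤ) : ℂ) := by
          rw [Finset.sum_eq_single l]
          · rw [bt_y0 hAC h0 h1, if_pos]
            exact ⟨by rw [hqv]; omega, hmq⟩
          · intro j' _ hj'
            rw [bt_y0 hAC h0 h1, if_neg, mul_zero]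
            rintro ⟨h4, -⟩
            apply hj'
            rw [hqv] at h4
            exact Fin.ext (by omega)
          · simp
        have h4 : ∑ r, bt A C (y0 A C i0 t0) (Function.update i0 t0 r, s) * N r q = 0 := by
          refine Finset.sum_eq_zero fun r _ => ?_
          rw [bt_y0 hAC h0 h1]
          split_ifs with h5
          · have hrq : (r : ℕ) < q := by
              have : (s : ℕ) ≤ q := hsq
              omega
            rw [ih r (by omega) r q rfl hrq (by omega), mul_zero]
          · rw [zero_mul]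
        rw [h3, h4] at h2
        have h5 : dl A (fun t => ((Function.update i0 t0 q t : Fin k) : ℕ)) ≠ 0 := by
          rw [dl_ne_zero_iff]
          intro t ht r hr htr
          exact h1 q hmq ht hr (Fin.ext htr)
        have h6 : ((dl A (fun t => ((Function.update i0 t0 q t : Fin k) : ℕ)) : ℤ) : ℂ) ≠ 0 := by
          exact_mod_cast h5
        exact (mul_eq_zero.1 h2).resolve_right h6
    have hν0 : ν = 0 := by
      funext p
      have h2 := hNzero _ p.1.1 p.1.2 rfl p.2.1 p.2.2
      rw [hN, nMat, dif_pos p.2] at h2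
      exact h2
    have hη0 : η = 0 := by
      funext q
      obtain ⟨i, hi, hinj, hq⟩ := exists_index hAC q
      have h2 := hsnd (i, q.1)
      rw [hν0] at h2
      have h3 : uMat A.card (fun p : TauU A.card k => (TrivSqZeroExt.inr ((0 : TauU A.card k → ℂ) p) :
          DualNumber ℂ)) = 1 := by
        ext1 a b
        simp only [uMat, Matrix.one_apply, Pi.zero_apply, TrivSqZeroExt.inr_zero]
        split_ifs with h4 h5 h5
        · exact absurd h5 h4.1.ne
        · rfl
        · rfl
        · rfl
      unfold chart at h2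
      simp only [Sum.elim_inl, Sum.elim_inr] at h2
      rw [h3, adjugate_one, act_one_one, snd_bt, TrivSqZeroExt.snd_add, TrivSqZeroExt.snd_inl,
        TrivSqZeroExt.snd_inr, zero_add, bt_eq η hi hinj, hq] at h2
      have h5 : dl A (fun t => ((i t : Fin k) : ℕ)) ≠ 0 := by
        rw [dl_ne_zero_iff]
        intro t ht r hr htr
        exact hinj ht hr (Fin.ext htr)
      have h6 : ((dl A (fun t => ((i t : Fin k) : ℕ)) : ℤ) : ℂ) ≠ 0 := by
        exact_mod_cast h5
      exact (mul_eq_zero.1 h2).resolve_left h6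
    funext q
    rcases q with q | q
    · exact congr_fun hν0 q
    · exact congr_fun hη0 q
  · refine ⟨0, fun ξ _ => ?_⟩
    funext q
    exfalso
    rcases q with q | q
    · have h1 := q.2.2
      have h2 := q.1.2.2
      omega
    · have h1 := q.1.2
      obtain ⟨S, hS⟩ := q.2.1
      rw [Finset.mem_powersetCard] at hS
      have h2 := Finset.card_le_univ S
      rw [hS.2, Fintype.card_fin] at h2
      omega

end special

end Pool.Agent.NilpotentNAry
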