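import Mathlib
import Pool.Agent.AlgDim.KrullDim
import Pool.Agent.NilpotentNAry.Defs
import Pool.Agent.NilpotentNAry.Jacobian

set_option autoImplicit false

/-!
# The dimension of the variety of nilpotent `(A,C)`-commutative `n`-ary algebras
-/

namespace Pool.Agent.NilpotentNAry

open MvPolynomial

variable {n k : ℕ} {A C : Finset (Fin n)}

theorem card_tauU (a k : ℕ) : Fintype.card (TauU a k) = k.choose 2 - (min k a).choose 2 := by
  classical
  have h1 : Fintype.card (TauU a k) = ∑ j : Fin k, if a ≤ (j : ℕ) then (j : ℕ) else 0 := by
    rw [Fintype.card_subtype, Finset.card_filter, Fintype.sum_prod_type_right]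
    refine Finset.sum_congr rfl fun j _ => ?_
    by_cases hj : a ≤ (j : ℕ)
    · simp only [hj, and_true, if_true]
      rw [← Finset.card_filter]
      have h2 : (Finset.univ.filter fun i : Fin k => i < j) = Finset.Iio j := by
        ext i; simp
      rw [h2, Fin.card_Iio]
    · simp [hj]
  rw [h1, Fin.sum_univ_eq_sum_range (fun j => if a ≤ j then j else 0)]
  have h3 : ∑ j ∈ Finset.range k, (if a ≤ j then j else 0) +
      ∑ j ∈ Finset.range (min k a), j = ∑ j ∈ Finset.range k, j := by
    have h4 : ∑ j ∈ Finset.range (min k a), j =
        ∑ j ∈ Finset.range k, (if a ≤ j then 0 else j) := by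
      rw [← Finset.sum_filter_add_sum_filter_not (Finset.range k) (fun j => a ≤ j)]
      rw [Finset.sum_congr rfl (g := fun _ => 0)
        (s₁ := (Finset.range k).filter fun j => a ≤ j)
        (f := fun j => if a ≤ j then 0 else j)]
      · rw [Finset.sum_const_zero, zero_add]
        have h5 : (Finset.range k).filter (fun j => ¬ a ≤ j) = Finset.range (min k a) := by
          ext j
          simp only [Finset.mem_filter, Finset.mem_range]
          omega
        rw [h5]
        refine Finset.sum_congr rfl fun j hj => ?_
        rw [Finset.mem_range] at hj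
        rw [if_neg (by omega)]
      · intro j hj
        rw [Finset.mem_filter] at hj
        rw [if_pos hj.2]
    rw [h4, ← Finset.sum_add_distrib]
    refine Finset.sum_congr rfl fun j _ => ?_
    split_ifs <;> simp
  rw [Finset.sum_range_id, Finset.sum_range_id, ← Nat.choose_two_right,
    ← Nat.choose_two_right] at h3
  omega

theorem dimension_nilpotentVariety (hn : 0 < n) (hAC : Disjoint A C) :
    dimension (nilpotentVariety n k A C) =
      ((∑ p ∈ Finset.range k, p.choose A.card * p.multichoose C.card *
        p ^ (n - A.card - C.card) + k.choose 2 - (min k A.card).choose 2 : ℕ) : WithBot ℕ∞) := by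
  classical
  let Φ : MvPolynomial ((Fin n → Fin k) × Fin k) ℂ →ₐ[ℂ]
      MvPolynomial (TauU A.card k ⊕ TauB A C k) ℂ := aeval (chart A C fun q => X q)
  have hΦ : ∀ (f : MvPolynomial ((Fin n → Fin k) × Fin k) ℂ)
      (z : TauU A.card k ⊕ TauB A C k → ℂ), eval z (Φ f) = eval (chart A C z) f := by
    intro f z
    have h1 : (eval z).comp (Φ : _ →+* _) = eval (chart A C z) := by
      apply MvPolynomial.ringHom_ext
      · intro r
        simp [Φ]
      · intro s
        simp only [RingHom.comp_apply, RingHom.coe_coe, Φ, aeval_X, eval_X]
        rw [map_chart]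
        simp
    exact RingHom.congr_fun h1 f
  have hker : MvPolynomial.vanishingIdeal ℂ (nilpotentVariety n k A C) = RingHom.ker Φ := by
    ext f
    rw [mem_vanishingIdeal_iff, RingHom.mem_ker]
    constructor
    · intro hf
      apply MvPolynomial.funext
      intro z
      rw [hΦ, map_zero]
      have := hf _ (chart_mem hn hAC z)
      rwa [← MvPolynomial.coe_aeval_eq_eval]
    · intro hf x hx
      obtain ⟨μ, hμ, hnil, rfl⟩ := hx
      have h1 := mem_closure_chart hAC hμ hnil
      have h2 : closure (Set.range (chart A C : (TauU A.card k ⊕ TauB A C k → ℂ) → _)) ⊆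
          {x | eval x f = 0} := by
        apply closure_minimal
        · rintro _ ⟨z, rfl⟩
          simp only [Set.mem_ofPred_eq]
          rw [← hΦ, hf, map_zero]
        · exact isClosed_eq (MvPolynomial.continuous_eval f) continuous_const
      have h3 : eval (structureConstants μ) f = 0 := h2 h1
      rwa [← MvPolynomial.coe_aeval_eq_eval] at h3
  rw [dimension, hker]
  obtain ⟨pt, hpt⟩ := differential_injective (k := k) hn hAC
  obtain ⟨h, hh⟩ := Pool.Agent.AlgDim.exists_algebraicIndependent_of_injective_differential Φ pt
    (fun ξ hξ => hpt ξ fun s => by simpa [Φ] using hξ s)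
  rw [Pool.Agent.AlgDim.ringKrullDim_quotient_ker Φ h hh, Fintype.card_sum, card_tauU,
    card_tauB hAC]
  congr 1
  have h1 : (min k A.card).choose 2 ≤ k.choose 2 :=
    Nat.choose_le_choose 2 (min_le_left _ _)
  have : k.choose 2 - (min k A.card).choose 2 + ∑ p ∈ Finset.range k, p.choose A.card *
      p.multichoose C.card * p ^ (n - A.card - C.card) = ∑ p ∈ Finset.range k, p.choose A.card *
      p.multichoose C.card * p ^ (n - A.card - C.card) + k.choose 2 - (min k A.card).choose 2 := by
    omega
  exact_mod_cast this

end Pool.Agent.NilpotentNAry
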